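import Pool.Agent.Lib.MP_76b24b_lc.Glob

/-!
# MP_76b24b_lc: switching activity outside a small set of payload bits

All but few payload bits can be fixed such that, while the other bits are flipped one after the other,
every gate changes `D` times at most; the total number of changes is still large for most shifts.
-/

set_option autoImplicit false

namespace Pool.Agent.Lib.MP_76b24b_lc

open Finset

/-- The payload after the first `i` steps of the walk: those bits among `π 0, …, π (i - 1)` which are not
in `F` have been flipped. -/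
def walk {N : ℕ} (F : Finset (Fin N)) (y : Fin N → Bool) (π : Equiv.Perm (Fin N)) (i : ℕ)
    (j : Fin N) : Bool :=
  if (π.symm j).val < i ∧ j ∉ F then !(y j) else y j

/-- The number of changes of the value of the gate `g` along the walk, on the words
`2 ^ k y 2 ^ (N - k)`. -/
def Circuit.moves {N s : ℕ} (C : Circuit (2 * N) s) (k : Fin N) (F : Finset (Fin N))
    (y : Fin N → Bool) (π : Equiv.Perm (Fin N)) (g : Fin s) : ℕ :=
  #{i : Fin N | C.val (word k (walk F y π i.val)) g ≠ C.val (word k (walk F y π (i.val + 1))) g}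

section Main

variable {N s : ℕ} (C : Circuit (2 * N) s)

/-- The bits outside `F` on which a node depends, if the bits in `F` are fixed as in `z`. -/
def Circuit.freeAt {N s : ℕ} (C : Circuit (2 * N) s) (k : Fin N) (z : Fin N → Bool)
    (F : Finset (Fin N)) (v : (Fin (2 * N) × Fin 2) ⊕ Fin s) : Finset (Fin N) :=
  {l : Fin N | l ∉ F ∧ ∃ y : Fin N → Bool, (∀ f ∈ F, y f = z f) ∧
    C.fn k v y ≠ C.fn k v (Function.update y l (!(y l)))}

theorem mem_freeAt {k : Fin N} {z : Fin N → Bool} {F : Finset (Fin N)}
    {v : (Fin (2 * N) × Fin 2) ⊕ Fin s} {l : Fin N} :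
    l ∈ C.freeAt k z F v ↔ l ∉ F ∧ ∃ y : Fin N → Bool, (∀ f ∈ F, y f = z f) ∧
      C.fn k v y ≠ C.fn k v (Function.update y l (!(y l))) := by
  unfold Circuit.freeAt
  rw [Finset.mem_filter]
  exact ⟨fun h => h.2, fun h => ⟨Finset.mem_univ _, h⟩⟩

theorem freeAt_mono {k : Fin N} {z : Fin N → Bool} {F F' : Finset (Fin N)} (h : F ⊆ F')
    (v : (Fin (2 * N) × Fin 2) ⊕ Fin s) : C.freeAt k z F' v ⊆ C.freeAt k z F v := by
  intro l hl
  obtain ⟨h1, y, h2, h3⟩ := (mem_freeAt C).1 hl
  exact (mem_freeAt C).2 ⟨fun h4 => h1 (h h4), y, fun f hf => h2 f (h hf), h3⟩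

theorem freeAt_gate (k : Fin N) (z : Fin N → Bool) (F : Finset (Fin N)) (g : Fin s) :
    C.freeAt k z F (Sum.inr g) ⊆ C.freeAt k z F (C.left g) ∪ C.freeAt k z F (C.right g) := by
  intro l hl
  obtain ⟨h1, y, h2, h3⟩ := (mem_freeAt C).1 hl
  by_contra h4
  rw [Finset.mem_union, not_or] at h4
  obtain ⟨h5, h6⟩ := h4
  rw [mem_freeAt] at h5 h6
  push Not at h5 h6
  apply h3
  unfold Circuit.fn
  simp only [Circuit.node]
  rw [val_eq, val_eq]
  have h7 := h5 h1 y h2
  have h8 := h6 h1 y h2
  unfold Circuit.fn at h7 h8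
  rw [h7, h8]

theorem freeAt_inp (k : Fin N) (z : Fin N → Bool) (F : Finset (Fin N))
    (a : Fin (2 * N) × Fin 2) : #(C.freeAt k z F (Sum.inl a)) ≤ 1 := by
  rw [Finset.card_le_one]
  have key : ∀ l ∈ C.freeAt k z F (Sum.inl a), a = (pos k l, (0 : Fin 2)) := by
    intro l hl
    obtain ⟨-, y, -, h3⟩ := (mem_freeAt C).1 hl
    by_contra hne
    apply h3
    unfold Circuit.fn
    simp only [Circuit.node]
    exact inBit_ne k l _ _ (fun i hi => (Function.update_of_ne hi _ _).symm) a hne
  intro l hl l' hl'
  have h1 := key l hl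
  have h2 := key l' hl'
  rw [h1] at h2
  have h3 : pos k l = pos k l' := (Prod.mk.inj h2).1
  simp only [pos, Fin.mk.injEq] at h3
  exact Fin.ext (by omega)

theorem freeAt_pm {k : Fin N} {z : Fin N → Bool} {F : Finset (Fin N)}
    {u v : (Fin (2 * N) × Fin 2) ⊕ Fin s} (h : PM (C.fn k u) (C.fn k v)) :
    C.freeAt k z F u ⊆ C.freeAt k z F v := by
  intro l hl
  obtain ⟨h1, y, h2, h3⟩ := (mem_freeAt C).1 hl
  refine (mem_freeAt C).2 ⟨h1, y, h2, fun h4 => h3 ((h.eq_iff _ _).2 h4)⟩

/-- All but few payload bits can be fixed as in `z` such that every gate depends on `D` of the other bits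
at most. -/
theorem narrowAt (k : Fin N) (z : Fin N → Bool) (D : ℕ) (hD : 0 < D) (i : ℕ) :
    ∃ F : Finset (Fin N), #F ≤ D * #{g ∈ C.wide D k | g.val < i} ∧
    ∀ v : (Fin (2 * N) × Fin 2) ⊕ Fin s, (∀ g, v = Sum.inr g → g.val < i) →
      #(C.freeAt k z F v) ≤ D := by
  classical
  induction i with
  | zero =>
    refine ⟨∅, by simp, ?_⟩
    intro v hv
    rcases v with a | g
    · exact (freeAt_inp C k _ _ a).trans hD
    · exact absurd (hv g rfl) (Nat.not_lt_zero _)
  | succ i ih =>
    obtain ⟨F, hF, hu⟩ := ih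
    by_cases hi : i < s
    swap
    · refine ⟨F, hF.trans (Nat.mul_le_mul_left _ (Finset.card_le_card ?_)), ?_⟩
      · intro g hg
        obtain ⟨h1, h2⟩ := Finset.mem_filter.1 hg
        exact Finset.mem_filter.2 ⟨h1, by omega⟩
      · intro v hv
        exact hu v (fun g hg => by have := g.isLt; omega)
    set g₀ : Fin s := ⟨i, hi⟩ with hg₀
    have hl := hu (C.left g₀) (fun g hg => C.left_lt g₀ g hg)
    have hr := hu (C.right g₀) (fun g hg => C.right_lt g₀ g hg)
    by_cases hc : #(C.freeAt k z F (Sum.inr g₀)) ≤ D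
    · refine ⟨F, hF.trans (Nat.mul_le_mul_left _ (Finset.card_le_card ?_)), ?_⟩
      · intro g hg
        obtain ⟨h1, h2⟩ := Finset.mem_filter.1 hg
        exact Finset.mem_filter.2 ⟨h1, by omega⟩
      · intro v hv
        rcases v with a | g
        · exact hu _ (fun g hg => absurd hg (by simp))
        · rcases Nat.lt_or_ge g.val i with h1 | h1
          · exact hu _ (fun g' hg' => by rw [← Sum.inr.inj hg']; exact h1)
          · have h2 : g.val < i + 1 := hv g rfl
            have h3 : g = g₀ := Fin.ext (by simp only [hg₀]; omega)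
            rw [h3]
            exact hc
    · have hw : g₀ ∈ C.wide D k := by
        refine Finset.mem_filter.2 ⟨(mem_combining C).2 ⟨?_, ?_, ?_⟩, ?_⟩
        · intro h
          apply hc
          have : C.freeAt k z F (Sum.inr g₀) = ∅ := by
            rw [Finset.eq_empty_iff_forall_notMem]
            intro l hl'
            obtain ⟨-, y, -, h3⟩ := (mem_freeAt C).1 hl'
            exact h3 (h _ _)
          rw [this]
          exact Nat.zero_le _
        · intro h
          exact hc ((Finset.card_le_card (freeAt_pm C h)).trans hl)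
        · intro h
          exact hc ((Finset.card_le_card (freeAt_pm C h)).trans hr)
        · rw [not_le] at hc
          refine lt_of_lt_of_le hc (Finset.card_le_card fun l hl' => ?_)
          obtain ⟨-, y, -, h3⟩ := (mem_freeAt C).1 hl'
          exact Finset.mem_filter.2 ⟨Finset.mem_univ _, y, h3⟩
      refine ⟨F ∪ C.freeAt k z F (C.left g₀), ?_, ?_⟩
      · have h1 : #{g ∈ C.wide D k | g.val < i} + 1 ≤ #{g ∈ C.wide D k | g.val < i + 1} := by
          have h7 : insert g₀ {g ∈ C.wide D k | g.val < i} ⊆ {g ∈ C.wide D k | g.val < i + 1} := by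
            intro g hg
            rw [Finset.mem_insert] at hg
            rcases hg with rfl | hg
            · exact Finset.mem_filter.2 ⟨hw, by simp only [hg₀]; omega⟩
            · obtain ⟨h8, h9⟩ := Finset.mem_filter.1 hg
              exact Finset.mem_filter.2 ⟨h8, by omega⟩
          have h8 := Finset.card_le_card h7
          rw [Finset.card_insert_of_notMem (by
            intro h
            have := (Finset.mem_filter.1 h).2
            simp only [hg₀] at this
            omega)] at h8
          exact h8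
        calc #(F ∪ C.freeAt k z F (C.left g₀)) ≤ #F + #(C.freeAt k z F (C.left g₀)) :=
              Finset.card_union_le _ _
          _ ≤ D * #{g ∈ C.wide D k | g.val < i} + D := add_le_add hF hl
          _ = D * (#{g ∈ C.wide D k | g.val < i} + 1) := by ring
          _ ≤ D * #{g ∈ C.wide D k | g.val < i + 1} := Nat.mul_le_mul_left _ h1
      · have hm := freeAt_mono C (k := k) (z := z) (F := F)
          (F' := F ∪ C.freeAt k z F (C.left g₀)) Finset.subset_union_left
        intro v hv
        rcases v with a | g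
        · exact (Finset.card_le_card (hm _)).trans (hu _ (fun g hg => absurd hg (by simp)))
        · rcases Nat.lt_or_ge g.val i with h1 | h1
          · exact (Finset.card_le_card (hm _)).trans
              (hu _ (fun g' hg' => by rw [← Sum.inr.inj hg']; exact h1))
          · have h2 : g.val < i + 1 := hv g rfl
            have h3 : g = g₀ := Fin.ext (by simp only [hg₀]; omega)
            rw [h3]
            refine (Finset.card_le_card ?_).trans hr
            intro l hl'
            rcases Finset.mem_union.1 (freeAt_gate C k z _ g₀ hl') with h4 | h4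
            · exfalso
              exact ((mem_freeAt C).1 h4).1 (Finset.mem_union_right _ (hm _ h4))
            · exact hm _ h4

/-- One step of the walk. -/
theorem walk_step (F : Finset (Fin N)) (z : Fin N → Bool) (π : Equiv.Perm (Fin N)) (i : Fin N) :
    (π i ∈ F → walk F z π (i.val + 1) = walk F z π i.val) ∧
    (π i ∉ F → walk F z π (i.val + 1) =
      Function.update (walk F z π i.val) (π i) (!(walk F z π i.val (π i)))) := by
  have hne : ∀ j, j ≠ π i → ((π.symm j).val < i.val + 1 ↔ (π.symm j).val < i.val) := by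
    intro j hj
    have : (π.symm j).val ≠ i.val := by
      intro h
      apply hj
      rw [← Fin.ext h, Equiv.apply_symm_apply]
    omega
  constructor
  · intro hi
    funext j
    unfold walk
    by_cases hj : j = π i
    · subst hj
      simp [hi]
    · simp only [hne j hj]
  · intro hi
    funext j
    by_cases hj : j = π i
    · subst hj
      rw [Function.update_self]
      simp [walk, hi]
    · rw [Function.update_of_ne hj]
      unfold walk
      simp only [hne j hj]

theorem walk_fixed (F : Finset (Fin N)) (z : Fin N → Bool) (π : Equiv.Perm (Fin N)) (i : ℕ) :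
    ∀ f ∈ F, walk F z π i f = z f := by
  intro f hf
  unfold walk
  rw [if_neg (fun h => h.2 hf)]

/-- A gate changes at most as often as the number of free bits on which it depends. -/
theorem moves_le (k : Fin N) (F : Finset (Fin N)) (z : Fin N → Bool) (π : Equiv.Perm (Fin N))
    (g : Fin s) : C.moves k F z π g ≤ #(C.freeAt k z F (Sum.inr g)) := by
  unfold Circuit.moves
  refine Finset.card_le_card_of_injOn (fun i => π i) ?_ (fun i _ j _ h => π.injective h)
  intro i hi
  have h1 : C.val (word k (walk F z π i.val)) g ≠ C.val (word k (walk F z π (i.val + 1))) g :=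
    (Finset.mem_filter.1 hi).2
  have h2 : π i ∉ F := by
    intro h
    rw [(walk_step F z π i).1 h] at h1
    exact h1 rfl
  rw [(walk_step F z π i).2 h2] at h1
  exact (mem_freeAt C).2 ⟨h2, walk F z π i.val, walk_fixed F z π _, h1⟩

/-- The total number of changes along the walk. -/
theorem sum_moves (k : Fin N) (F : Finset (Fin N)) (z : Fin N → Bool) (π : Equiv.Perm (Fin N)) :
    ∑ j ∈ Fᶜ, C.changes (word k (walk F z π (π.symm j).val))
      (word k (walk F z π ((π.symm j).val + 1))) ≤ ∑ g : Fin s, C.moves k F z π g := by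
  classical
  calc ∑ j ∈ Fᶜ, C.changes (word k (walk F z π (π.symm j).val))
        (word k (walk F z π ((π.symm j).val + 1)))
      ≤ ∑ j : Fin N, C.changes (word k (walk F z π (π.symm j).val))
        (word k (walk F z π ((π.symm j).val + 1))) :=
        Finset.sum_le_sum_of_subset (Finset.subset_univ _)
    _ = ∑ i : Fin N, C.changes (word k (walk F z π i.val)) (word k (walk F z π (i.val + 1))) :=
        Equiv.sum_comp π.symm
          (fun i : Fin N => C.changes (word k (walk F z π i.val)) (word k (walk F z π (i.val + 1))))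
    _ = ∑ i : Fin N, ∑ g : Fin s, (if C.val (word k (walk F z π i.val)) g ≠
          C.val (word k (walk F z π (i.val + 1))) g then 1 else 0) := by
        refine Finset.sum_congr rfl fun i _ => ?_
        rw [Circuit.changes, Finset.card_filter]
    _ = ∑ g : Fin s, ∑ i : Fin N, (if C.val (word k (walk F z π i.val)) g ≠
          C.val (word k (walk F z π (i.val + 1))) g then 1 else 0) := Finset.sum_comm
    _ = ∑ g : Fin s, C.moves k F z π g := by
        refine Finset.sum_congr rfl fun g _ => ?_
        rw [Circuit.moves, Finset.card_filter]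
    _ ≤ _ := le_rfl

/-- Part VI: the switching activity with few wide gates. -/
theorem partVI (hC : C.Computes) (D m : ℕ) (hD : 0 < D) (K : Finset (Fin N))
    (hm : D * (∑ k ∈ K, #(C.wide D k)) + #K * m ≤ #K * N) (y : Fin N → Fin N → Bool) :
    ∃ F : Fin N → Finset (Fin N), (∀ k, #(F k) ≤ D * #(C.wide D k)) ∧
      ∀ π : Fin N → Equiv.Perm (Fin N),
        (∀ k g, C.moves k (F k) (y k) (π k) g ≤ D) ∧
        #K * m * Nat.log 2 (#K * m / N) ≤
          2 * ∑ k ∈ K, ∑ g : Fin s, C.moves k (F k) (y k) (π k) g := by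
  classical
  choose F hF hJ using fun k => narrowAt C k (y k) D hD s
  have hF' : ∀ k, #(F k) ≤ D * #(C.wide D k) :=
    fun k => (hF k).trans (Nat.mul_le_mul_left _ (Finset.card_le_card (Finset.filter_subset _ _)))
  refine ⟨F, hF', fun π => ⟨fun k g => (moves_le C k _ _ _ g).trans
    (hJ k _ (fun g' _ => g'.isLt)), ?_⟩⟩
  rcases Nat.eq_zero_or_pos (Nat.log 2 (#K * m / N)) with h0 | h0
  · rw [h0]; simp
  obtain ⟨d, hd⟩ := Nat.exists_eq_succ_of_ne_zero h0.ne'
  have hm0 : #K * m / N ≠ 0 := by
    intro h
    rw [h] at h0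
    simp at h0
  have hp : N * 2 ^ (d + 1) ≤ #K * m := by
    have h1 := Nat.pow_log_le_self 2 hm0
    rw [hd] at h1
    calc N * 2 ^ (d + 1) ≤ N * (#K * m / N) := Nat.mul_le_mul_left _ h1
      _ ≤ #K * m := Nat.mul_div_le _ _
  set E : Finset (Fin N × Fin N) := {e | e.1 ∈ K ∧ e.2 ∉ F e.1} with hE
  have hEk : ∀ f : Fin N × Fin N → ℕ, ∑ e ∈ E, f e = ∑ k ∈ K, ∑ j ∈ (F k)ᶜ, f (k, j) := by
    intro f
    rw [hE, Finset.sum_filter, Fintype.sum_prod_type, ← Finset.sum_filter_add_sum_filter_not
      (Finset.univ : Finset (Fin N)) (fun k => k ∈ K)]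
    have h1 : ∑ x ∈ (Finset.univ : Finset (Fin N)) with ¬ x ∈ K, ∑ y : Fin N,
        (if (x, y).1 ∈ K ∧ (x, y).2 ∉ F (x, y).1 then f (x, y) else 0) = 0 := by
      refine Finset.sum_eq_zero fun x hx => Finset.sum_eq_zero fun y _ => ?_
      rw [if_neg]
      intro h
      exact (Finset.mem_filter.1 hx).2 h.1
    rw [h1, add_zero]
    have h2 : (Finset.univ : Finset (Fin N)).filter (fun k => k ∈ K) = K := by
      ext k
      simp
    rw [h2]
    refine Finset.sum_congr rfl fun k hk => ?_
    rw [← Finset.sum_filter]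
    refine Finset.sum_congr ?_ fun j _ => rfl
    ext j
    simp [hk]
  have hcE : #K * m ≤ #E := by
    have h1 : #E = ∑ k ∈ K, #((F k)ᶜ) := by
      rw [Finset.card_eq_sum_ones, hEk]
      refine Finset.sum_congr rfl fun k _ => ?_
      rw [Finset.card_eq_sum_ones]
    have h2 : #E + ∑ k ∈ K, #(F k) = #K * N := by
      rw [h1, ← Finset.sum_add_distrib]
      calc ∑ k ∈ K, (#((F k)ᶜ) + #(F k)) = ∑ _k ∈ K, N := by
            refine Finset.sum_congr rfl fun k _ => ?_
            have := Finset.card_compl_add_card (F k)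
            simp
        _ = #K * N := by rw [Finset.sum_const, smul_eq_mul]
    have h3 : ∑ k ∈ K, #(F k) ≤ D * ∑ k ∈ K, #(C.wide D k) := by
      rw [Finset.mul_sum]
      exact Finset.sum_le_sum fun k _ => hF' k
    omega
  have hc := count C hC E
    (fun e => walk (F e.1) (y e.1) (π e.1) ((π e.1).symm e.2).val)
    (fun e => walk (F e.1) (y e.1) (π e.1) (((π e.1).symm e.2).val + 1)) (by
      intro e he
      have h1 : e.2 ∉ F e.1 := (Finset.mem_filter.1 he).2.2
      have h2 := (walk_step (F e.1) (y e.1) (π e.1) ((π e.1).symm e.2)).2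
        (by rw [Equiv.apply_symm_apply]; exact h1)
      rw [Equiv.apply_symm_apply] at h2
      rw [h2]
      constructor
      · rw [Function.update_self]
        cases walk (F e.1) (y e.1) (π e.1) ((π e.1).symm e.2).val e.2 <;> simp
      · intro i hi
        rw [Function.update_of_ne hi]) d
  have hS : (∑ e ∈ E, C.changes (word e.1 (walk (F e.1) (y e.1) (π e.1) ((π e.1).symm e.2).val))
      (word e.1 (walk (F e.1) (y e.1) (π e.1) (((π e.1).symm e.2).val + 1)))) ≤
      ∑ k ∈ K, ∑ g : Fin s, C.moves k (F k) (y k) (π k) g := by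
    rw [hEk]
    exact Finset.sum_le_sum fun k _ => sum_moves C k (F k) (y k) (π k)
  have h1 : 2 * ((d + 1) * (N * 2 ^ d)) ≤ (d + 1) * (#K * m) := by
    calc 2 * ((d + 1) * (N * 2 ^ d)) = (d + 1) * (N * 2 ^ (d + 1)) := by ring
      _ ≤ (d + 1) * (#K * m) := Nat.mul_le_mul_left _ hp
  have h2 : (d + 1) * (#K * m) ≤ (d + 1) * #E := Nat.mul_le_mul_left _ hcE
  have h3 : #K * m * (d + 1) = (d + 1) * (#K * m) := by ring
  rw [hd, Nat.succ_eq_add_one, h3]
  omega

/-- Without a restriction on the gates: the number of changes along every walk through all bits. -/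
theorem partVI_all (hC : C.Computes) (y : Fin N → Fin N → Bool)
    (π : Fin N → Equiv.Perm (Fin N)) :
    N * N * Nat.log 2 N ≤ 2 * ∑ k : Fin N, ∑ g : Fin s, C.moves k ∅ (y k) (π k) g := by
  rcases Nat.eq_zero_or_pos N with h0 | h0
  · subst h0
    simp
  have hw : ∀ k, C.wide N k = ∅ := by
    intro k
    unfold Circuit.wide
    rw [Finset.filter_eq_empty_iff]
    intro g _ h
    have := Finset.card_le_univ (C.deps k g)
    simp only [Fintype.card_fin] at this
    omega
  obtain ⟨F, hF, h⟩ := partVI C hC N N h0 Finset.univ (by simp [hw]) y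
  have hF0 : ∀ k, F k = ∅ := by
    intro k
    have := hF k
    rw [hw k] at this
    simpa using this
  have h2 := (h π).2
  simp only [Finset.card_univ, Fintype.card_fin, Nat.mul_div_cancel _ h0, hF0] at h2
  exact h2

/-- A gate changes at most as often as the number of bits on which it depends. -/
theorem moves_le_deps (k : Fin N) (F : Finset (Fin N)) (z : Fin N → Bool)
    (π : Equiv.Perm (Fin N)) (g : Fin s) : C.moves k F z π g ≤ #(C.deps k g) := by
  refine (moves_le C k F z π g).trans (Finset.card_le_card fun l hl' => ?_)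
  obtain ⟨-, y, -, h3⟩ := (mem_freeAt C).1 hl'
  exact Finset.mem_filter.2 ⟨Finset.mem_univ _, y, h3⟩

/-- `partV` from `partVI`. -/
theorem partV_of_partVI (hC : C.Computes) (D m : ℕ) (hD : 0 < D) (K : Finset (Fin N))
    (hm : D * (∑ k ∈ K, #(C.wide D k)) + #K * m ≤ #K * N) :
    #K * m * Nat.log 2 (#K * m / N) ≤ 2 * ∑ k ∈ K, ∑ g : Fin s, min #(C.deps k g) D := by
  obtain ⟨F, -, h⟩ := partVI C hC D m hD K hm (fun _ _ => false)
  obtain ⟨h1, h2⟩ := h (fun _ => Equiv.refl _)
  refine h2.trans (Nat.mul_le_mul_left _ (Finset.sum_le_sum fun k _ => Finset.sum_le_sum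
    fun g _ => le_min (moves_le_deps C k _ _ _ g) (h1 k g)))

end Main

end Pool.Agent.Lib.MP_76b24b_lc
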