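import Mathlib

/-!
# MP_76b24b_lc: switching activity of circuits for the stable sort

The function `f` on words of length `2 N` contains the shifts `2 ^ k y 2 ^ (N - k) ↦ y 2 ^ N`. A
circuit with arbitrary binary gates which computes `f` changes, on average over the shifts `k`, at
least `(N / 2) log N` gate values while the `N` payload bits are flipped one after the other. It
follows that circuits of linear size need many negations of payload dependent values and many gates
which combine two payload dependent values.
-/

set_option autoImplicit false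

namespace Pool.Agent.Lib.MP_76b24b_lc

open Finset

/-- Boolean circuits with `s` binary gates for words of length `n` over `{0, 1, 2}`, two input bits for
each letter, two output bits for each letter. The gates are numbered topologically. -/
structure Circuit (n s : ℕ) where
  op : Fin s → Bool → Bool → Bool
  left : Fin s → (Fin n × Fin 2) ⊕ Fin s
  right : Fin s → (Fin n × Fin 2) ⊕ Fin s
  out : Fin n → Fin 2 → (Fin n × Fin 2) ⊕ Fin s
  left_lt : ∀ g h : Fin s, left g = Sum.inr h → h < g
  right_lt : ∀ g h : Fin s, right g = Sum.inr h → h < g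

/-- The input bits of a word: the bit `(i, 0)` says that letter `i` is `1`, the bit `(i, 1)` says that
letter `i` is `2`. -/
def inBit {n : ℕ} (x : Fin n → Fin 3) (a : Fin n × Fin 2) : Bool :=
  if a.2 = 0 then decide (x a.1 = 1) else decide (x a.1 = 2)

/-- The value of a gate on the input word `x`. -/
def Circuit.val {n s : ℕ} (C : Circuit n s) (x : Fin n → Fin 3) (g : Fin s) : Bool :=
  C.op g
    (match _h : C.left g with
      | Sum.inl a => inBit x a
      | Sum.inr h => C.val x h)
    (match _h : C.right g with
      | Sum.inl a => inBit x a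
      | Sum.inr h => C.val x h)
termination_by g.val
decreasing_by
  · exact C.left_lt g h _h
  · exact C.right_lt g h _h

/-- The value of an input bit or gate. -/
def Circuit.node {n s : ℕ} (C : Circuit n s) (x : Fin n → Fin 3) :
    (Fin n × Fin 2) ⊕ Fin s → Bool
  | Sum.inl a => inBit x a
  | Sum.inr g => C.val x g

/-- The letter `j` of `f x`. -/
def target {n : ℕ} (x : Fin n → Fin 3) (j : Fin n) : Fin 3 :=
  (((List.ofFn x).filter (fun a => a != (2 : Fin 3))) ++
    ((List.ofFn x).filter (fun a => a == (2 : Fin 3)))).getD j.val 0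

/-- The circuit computes `f` on the words of length `n`. -/
def Circuit.Computes {n s : ℕ} (C : Circuit n s) : Prop :=
  ∀ (x : Fin n → Fin 3) (j : Fin n),
    C.node x (C.out j 0) = decide (target x j = 1) ∧ C.node x (C.out j 1) = decide (target x j = 2)

/-- The word `2 ^ k y 2 ^ (N - k)` of length `2 N`. -/
def word {N : ℕ} (k : Fin N) (y : Fin N → Bool) (i : Fin (2 * N)) : Fin 3 :=
  if h : k.val ≤ i.val ∧ i.val < k.val + N then
    (if y ⟨i.val - k.val, by omega⟩ then 1 else 0) else 2

/-- Number of gates whose values on `x` and on `x'` are different. -/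
def Circuit.changes {n s : ℕ} (C : Circuit n s) (x x' : Fin n → Fin 3) : ℕ :=
  #{g : Fin s | C.val x g ≠ C.val x' g}

/-- The payload word after the first `i` flips: the bits `π 0, …, π (i - 1)` of `y` are flipped. -/
def flips {N : ℕ} (y : Fin N → Bool) (π : Equiv.Perm (Fin N)) (i : ℕ) (j : Fin N) : Bool :=
  if (π.symm j).val < i then !(y j) else y j

/-- The gates whose value on the words `2 ^ k y 2 ^ (N - k)` depends on the payload `y`. -/
def Circuit.payload {N s : ℕ} (C : Circuit (2 * N) s) (k : Fin N) : Finset (Fin s) :=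
  {g : Fin s | ∃ y y' : Fin N → Bool, C.val (word k y) g ≠ C.val (word k y') g}

/-- The gates with two different input nodes both of which depend on the payload `y` on the words
`2 ^ k y 2 ^ (N - k)`. -/
def Circuit.mixing {N s : ℕ} (C : Circuit (2 * N) s) (k : Fin N) : Finset (Fin s) :=
  {g : Fin s | C.left g ≠ C.right g ∧
    (∃ y y' : Fin N → Bool, C.node (word k y) (C.left g) ≠ C.node (word k y') (C.left g)) ∧
    ∃ y y' : Fin N → Bool, C.node (word k y) (C.right g) ≠ C.node (word k y') (C.right g)}

/-- A gate operation is monotone, as AND and OR. -/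
def IsMono (o : Bool → Bool → Bool) : Prop := ∀ a a' b b' : Bool, a ≤ a' → b ≤ b' → o a b ≤ o a' b'

/-- A gate operation is antitone, as NOT, NAND and NOR. -/
def IsAnti (o : Bool → Bool → Bool) : Prop := ∀ a a' b b' : Bool, a ≤ a' → b ≤ b' → o a' b' ≤ o a b

instance : DecidablePred IsMono := fun o => by
  unfold IsMono
  infer_instance

section Basic

variable {n s : ℕ} (C : Circuit n s)

theorem val_eq (x : Fin n → Fin 3) (g : Fin s) :
    C.val x g = C.op g (C.node x (C.left g)) (C.node x (C.right g)) := by
  rw [Circuit.val]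
  congr 1
  · congr 1
    split <;> rename_i h <;> rw [h] <;> rfl
  · split <;> rename_i h <;> rw [h] <;> rfl

/-- The input bits which can be reached from a node through at most `d` gates. -/
def Circuit.leaves (C : Circuit n s) : ℕ → (Fin n × Fin 2) ⊕ Fin s → Finset (Fin n × Fin 2)
  | _, Sum.inl a => {a}
  | 0, Sum.inr _ => ∅
  | d + 1, Sum.inr g => C.leaves d (C.left g) ∪ C.leaves d (C.right g)

theorem card_leaves (d : ℕ) : ∀ u, #(C.leaves d u) ≤ 2 ^ d := by
  induction d with
  | zero =>
    intro u
    rcases u with a | g <;> simp [Circuit.leaves]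
  | succ d ih =>
    intro u
    rcases u with a | g
    · simp only [Circuit.leaves, Finset.card_singleton]
      exact Nat.one_le_two_pow
    · simp only [Circuit.leaves]
      refine (Finset.card_union_le _ _).trans ?_
      have h1 := ih (C.left g)
      have h2 := ih (C.right g)
      rw [pow_succ]
      omega

/-- If the input bit `a₀` is the only one which changes, and a node `u` changes, then `a₀` is in
`leaves d u` or more than `d` gates change. -/
theorem long_path {x x' : Fin n → Fin 3} {a₀ : Fin n × Fin 2}
    (h : ∀ a, a ≠ a₀ → inBit x a = inBit x' a) (d : ℕ) :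
    ∀ u, C.node x u ≠ C.node x' u → a₀ ∉ C.leaves d u →
      d + 1 ≤ #{g : Fin s | C.val x g ≠ C.val x' g ∧ ∀ b, u = Sum.inr b → g ≤ b} ∧
        ∃ b, u = Sum.inr b := by
  induction d with
  | zero =>
    intro u hu ha
    rcases u with a | b
    · exfalso
      simp only [Circuit.leaves, Finset.mem_singleton] at ha
      exact hu (h a (Ne.symm ha))
    · refine ⟨?_, b, rfl⟩
      rw [Nat.zero_add, Nat.one_le_iff_ne_zero, ← Nat.pos_iff_ne_zero, Finset.card_pos]
      refine ⟨b, Finset.mem_filter.2 ⟨Finset.mem_univ _, hu, ?_⟩⟩
      intro b' hb'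
      rw [Sum.inr.inj hb']
  | succ d ih =>
    intro u hu ha
    rcases u with a | b
    · exfalso
      simp only [Circuit.leaves, Finset.mem_singleton] at ha
      exact hu (h a (Ne.symm ha))
    · refine ⟨?_, b, rfl⟩
      have hv : C.val x b ≠ C.val x' b := hu
      rw [val_eq, val_eq] at hv
      simp only [Circuit.leaves, Finset.mem_union, not_or] at ha
      have key : ∃ v, C.node x v ≠ C.node x' v ∧ a₀ ∉ C.leaves d v ∧
          ∀ h : Fin s, v = Sum.inr h → h < b := by
        by_cases hl : C.node x (C.left b) = C.node x' (C.left b)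
        · have hr : C.node x (C.right b) ≠ C.node x' (C.right b) := by
            intro hr
            exact hv (by rw [hl, hr])
          exact ⟨C.right b, hr, ha.2, fun h hh => C.right_lt b h hh⟩
        · exact ⟨C.left b, hl, ha.1, fun h hh => C.left_lt b h hh⟩
      obtain ⟨v, hv1, hv2, hv3⟩ := key
      obtain ⟨hc, b', rfl⟩ := ih v hv1 hv2
      have hlt : b' < b := hv3 b' rfl
      have hsub : insert b ({g : Fin s | C.val x g ≠ C.val x' g ∧
          ∀ b'' : Fin s, (Sum.inr b' : (Fin n × Fin 2) ⊕ Fin s) = Sum.inr b'' → g ≤ b''} :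
            Finset (Fin s)) ⊆
          ({g : Fin s | C.val x g ≠ C.val x' g ∧
          ∀ b'' : Fin s, (Sum.inr b : (Fin n × Fin 2) ⊕ Fin s) = Sum.inr b'' → g ≤ b''} :
            Finset (Fin s)) := by
        intro g hg
        rw [Finset.mem_insert] at hg
        rcases hg with rfl | hg
        · refine Finset.mem_filter.2 ⟨Finset.mem_univ _, hu, ?_⟩
          intro b'' hb''
          rw [Sum.inr.inj hb'']
        · obtain ⟨-, h1, h2⟩ := Finset.mem_filter.1 hg
          refine Finset.mem_filter.2 ⟨Finset.mem_univ _, h1, ?_⟩
          intro b'' hb''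
          have := h2 b' rfl
          rw [← Sum.inr.inj hb'']
          exact this.trans hlt.le
      have hnm : b ∉ ({g : Fin s | C.val x g ≠ C.val x' g ∧
          ∀ b'' : Fin s, (Sum.inr b' : (Fin n × Fin 2) ⊕ Fin s) = Sum.inr b'' → g ≤ b''} :
            Finset (Fin s)) := by
        intro hb
        have := (Finset.mem_filter.1 hb).2.2 b' rfl
        exact absurd hlt (not_lt.2 this)
      have := Finset.card_le_card hsub
      rw [Finset.card_insert_of_notMem hnm] at this
      omega

theorem changes_ge {x x' : Fin n → Fin 3} {a₀ : Fin n × Fin 2}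
    (h : ∀ a, a ≠ a₀ → inBit x a = inBit x' a) (d : ℕ) (u : (Fin n × Fin 2) ⊕ Fin s)
    (hu : C.node x u ≠ C.node x' u) (ha : a₀ ∉ C.leaves d u) : d + 1 ≤ C.changes x x' := by
  refine (long_path C h d u hu ha).1.trans (Finset.card_le_card ?_)
  intro g hg
  exact Finset.mem_filter.2 ⟨Finset.mem_univ _, (Finset.mem_filter.1 hg).2.1⟩

end Basic

section Words

variable {N : ℕ}

theorem ofFn_word (k : Fin N) (y : Fin N → Bool) :
    List.ofFn (word k y) = List.replicate k.val 2 ++
      ((List.ofFn fun j : Fin N => if y j then (1 : Fin 3) else 0) ++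
        List.replicate (N - k.val) 2) := by
  have hk := k.isLt
  apply List.ext_getElem
  · simp; omega
  · intro i h1 h2
    rw [List.getElem_ofFn]
    simp only [List.length_ofFn] at h1
    by_cases c1 : i < k.val
    · rw [List.getElem_append_left (by simpa using c1), List.getElem_replicate]
      unfold word
      rw [dif_neg]
      simp only
      omega
    · rw [List.getElem_append_right (by simpa using c1)]
      simp only [List.length_replicate]
      by_cases c2 : i < k.val + N
      · rw [List.getElem_append_left (by simp; omega), List.getElem_ofFn]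
        unfold word
        rw [dif_pos (by simp only; omega)]
      · rw [List.getElem_append_right (by simp; omega), List.getElem_replicate]
        unfold word
        rw [dif_neg]
        simp only
        omega

theorem target_word (k : Fin N) (y : Fin N → Bool) (j : Fin N) :
    target (word k y) ⟨j.val, by omega⟩ = if y j then 1 else 0 := by
  unfold target
  rw [ofFn_word]
  have h1 : (List.replicate k.val (2 : Fin 3) ++
      ((List.ofFn fun j : Fin N => if y j then (1 : Fin 3) else 0) ++
        List.replicate (N - k.val) 2)).filter (fun a => a != (2 : Fin 3)) =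
      List.ofFn fun j : Fin N => if y j then (1 : Fin 3) else 0 := by
    rw [List.filter_append, List.filter_append]
    have e1 : ∀ m : ℕ, (List.replicate m (2 : Fin 3)).filter (fun a => a != (2 : Fin 3)) = [] := by
      intro m
      rw [List.filter_eq_nil_iff]
      intro a ha
      rw [List.eq_of_mem_replicate ha]
      decide
    have e2 : (List.ofFn fun j : Fin N => if y j then (1 : Fin 3) else 0).filter
        (fun a => a != (2 : Fin 3)) = List.ofFn fun j : Fin N => if y j then (1 : Fin 3) else 0 := by
      rw [List.filter_eq_self]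
      intro a ha
      rw [List.mem_ofFn] at ha
      obtain ⟨i, rfl⟩ := ha
      split_ifs <;> decide
    rw [e1, e1, e2]
    simp
  rw [h1, List.getD_append _ _ _ _ (by simp), List.getD_eq_getElem _ _ (by simp)]
  rw [List.getElem_ofFn]

/-- The position of the payload bit `j` in the word. -/
def pos (k j : Fin N) : Fin (2 * N) := ⟨k.val + j.val, by omega⟩

theorem word_pos (k j : Fin N) (y : Fin N → Bool) : word k y (pos k j) = if y j then 1 else 0 := by
  unfold word pos
  rw [dif_pos (by simp only; omega)]
  simp

theorem inBit_ne (k j : Fin N) (y y' : Fin N → Bool) (h : ∀ i, i ≠ j → y i = y' i)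
    (a : Fin (2 * N) × Fin 2) (ha : a ≠ (pos k j, 0)) :
    inBit (word k y) a = inBit (word k y') a := by
  obtain ⟨i, b⟩ := a
  unfold inBit
  by_cases hb : b = 0
  · subst hb
    simp only [if_true]
    have hi : i ≠ pos k j := fun h' => ha (by rw [h'])
    have : word k y i = word k y' i := by
      unfold word
      by_cases c : k.val ≤ i.val ∧ i.val < k.val + N
      · rw [dif_pos c, dif_pos c, h]
        intro h'
        apply hi
        rw [Fin.ext_iff] at h' ⊢
        simp only [pos] at h' ⊢
        omega
      · rw [dif_neg c, dif_neg c]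
    rw [this]
  · simp only [hb, if_false]
    have : (word k y i = 2) ↔ (word k y' i = 2) := by
      unfold word
      by_cases c : k.val ≤ i.val ∧ i.val < k.val + N
      · rw [dif_pos c, dif_pos c]
        constructor <;> intro h2 <;> split_ifs at h2 <;> simp at h2
      · rw [dif_neg c, dif_neg c]
    simp only [this]

end Words

section Main

variable {N s : ℕ} (C : Circuit (2 * N) s)

/-- The output node of the payload bit `j`. -/
def Circuit.outP (C : Circuit (2 * N) s) (j : Fin N) : (Fin (2 * N) × Fin 2) ⊕ Fin s :=
  C.out ⟨j.val, by omega⟩ 0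

theorem out_ne (hC : C.Computes) (k j : Fin N) (y y' : Fin N → Bool) (h : y j ≠ y' j) :
    C.node (word k y) (C.outP j) ≠ C.node (word k y') (C.outP j) := by
  have h1 := (hC (word k y) ⟨j.val, by omega⟩).1
  have h2 := (hC (word k y') ⟨j.val, by omega⟩).1
  rw [target_word] at h1 h2
  unfold Circuit.outP
  rw [h1, h2]
  cases hy : y j <;> cases hy' : y' j <;> simp_all

/-- For every payload position only few shifts have a short path. -/
theorem few_short (d : ℕ) (j : Fin N) :
    #{k : Fin N | (pos k j, (0 : Fin 2)) ∈ C.leaves d (C.outP j)} ≤ 2 ^ d := by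
  refine le_trans ?_ (card_leaves C d (C.outP j))
  refine Finset.card_le_card_of_injOn (fun k => (pos k j, (0 : Fin 2))) ?_ ?_
  · intro k hk
    exact (Finset.mem_filter.1 hk).2
  · intro k _ k' _ hkk
    have h1 : pos k j = pos k' j := (Prod.mk.inj hkk).1
    simp only [pos, Fin.mk.injEq] at h1
    exact Fin.ext (by omega)

/-- The counting estimate: `E` is a set of pairs (shift, payload bit), for each of them the bit is
flipped between two payload words. -/
theorem count (hC : C.Computes) (E : Finset (Fin N × Fin N)) (a b : Fin N × Fin N → Fin N → Bool)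
    (hab : ∀ e ∈ E, a e e.2 ≠ b e e.2 ∧ ∀ i, i ≠ e.2 → a e i = b e i) (d : ℕ) :
    (d + 1) * #E ≤ (∑ e ∈ E, C.changes (word e.1 (a e)) (word e.1 (b e))) + (d + 1) * (N * 2 ^ d) := by
  have h1 : (d + 1) * #(E.filter fun e => (pos e.1 e.2, (0 : Fin 2)) ∉ C.leaves d (C.outP e.2)) ≤
      ∑ e ∈ E, C.changes (word e.1 (a e)) (word e.1 (b e)) := by
    calc (d + 1) * #(E.filter fun e => (pos e.1 e.2, (0 : Fin 2)) ∉ C.leaves d (C.outP e.2))
        = ∑ _e ∈ E.filter fun e => (pos e.1 e.2, (0 : Fin 2)) ∉ C.leaves d (C.outP e.2),
            (d + 1) := by rw [Finset.sum_const, smul_eq_mul, mul_comm]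
      _ ≤ ∑ e ∈ E.filter fun e => (pos e.1 e.2, (0 : Fin 2)) ∉ C.leaves d (C.outP e.2),
            C.changes (word e.1 (a e)) (word e.1 (b e)) := by
          refine Finset.sum_le_sum fun e he => ?_
          obtain ⟨he1, he2⟩ := Finset.mem_filter.1 he
          obtain ⟨hh1, hh2⟩ := hab e he1
          exact changes_ge C (fun a' ha' => inBit_ne e.1 e.2 _ _ hh2 a' ha') d (C.outP e.2)
            (out_ne C hC e.1 e.2 _ _ hh1) he2
      _ ≤ _ := Finset.sum_le_sum_of_subset (Finset.filter_subset _ _)
  have h2 : #(E.filter fun e => (pos e.1 e.2, (0 : Fin 2)) ∈ C.leaves d (C.outP e.2)) ≤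
      N * 2 ^ d := by
    calc #(E.filter fun e => (pos e.1 e.2, (0 : Fin 2)) ∈ C.leaves d (C.outP e.2))
        ≤ #((univ : Finset (Fin N × Fin N)).filter
            fun e => (pos e.1 e.2, (0 : Fin 2)) ∈ C.leaves d (C.outP e.2)) :=
          Finset.card_le_card (Finset.filter_subset_filter _ (Finset.subset_univ _))
      _ = ∑ j : Fin N, #{k : Fin N | (pos k j, (0 : Fin 2)) ∈ C.leaves d (C.outP j)} := by
          rw [Finset.card_eq_sum_card_fiberwise (f := fun e : Fin N × Fin N => e.2)
            (t := univ) (fun _ _ => Finset.mem_coe.2 (Finset.mem_univ _))]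
          refine Finset.sum_congr rfl fun j _ => ?_
          refine Finset.card_bij' (fun e _ => e.1) (fun k _ => (k, j)) ?_ ?_ ?_ ?_
          · intro e he
            obtain ⟨he1, he2⟩ := Finset.mem_filter.1 he
            obtain ⟨-, he3⟩ := Finset.mem_filter.1 he1
            refine Finset.mem_filter.2 ⟨Finset.mem_univ _, ?_⟩
            rw [← he2]
            exact he3
          · intro k hk
            obtain ⟨-, hk2⟩ := Finset.mem_filter.1 hk
            exact Finset.mem_filter.2 ⟨Finset.mem_filter.2 ⟨Finset.mem_univ _, hk2⟩, rfl⟩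
          · intro e he
            obtain ⟨he1, he2⟩ := Finset.mem_filter.1 he
            exact Prod.ext rfl he2.symm
          · intro k hk
            rfl
      _ ≤ ∑ _j : Fin N, 2 ^ d := Finset.sum_le_sum fun j _ => few_short C d j
      _ = N * 2 ^ d := by simp
  have h3 := Finset.card_filter_add_card_filter_not (s := E)
    (fun e => (pos e.1 e.2, (0 : Fin 2)) ∈ C.leaves d (C.outP e.2))
  calc (d + 1) * #E = (d + 1) * #(E.filter fun e => (pos e.1 e.2, (0 : Fin 2)) ∈
        C.leaves d (C.outP e.2)) +
      (d + 1) * #(E.filter fun e => ¬ (pos e.1 e.2, (0 : Fin 2)) ∈ C.leaves d (C.outP e.2)) := by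
        rw [← mul_add, h3]
    _ ≤ (d + 1) * (N * 2 ^ d) + ∑ e ∈ E, C.changes (word e.1 (a e)) (word e.1 (b e)) :=
        add_le_add (Nat.mul_le_mul_left _ h2) h1
    _ = _ := add_comm _ _

/-- Part I: the average switching activity. -/
theorem partI (hC : C.Computes) (y : Fin N → Bool) (π : Equiv.Perm (Fin N)) :
    N * N * Nat.log 2 N ≤ 2 * ∑ k : Fin N, ∑ i : Fin N,
      C.changes (word k (flips y π i.val)) (word k (flips y π (i.val + 1))) := by
  rcases Nat.eq_zero_or_pos (Nat.log 2 N) with h0 | h0
  · rw [h0]; simp
  obtain ⟨d, hd⟩ := Nat.exists_eq_succ_of_ne_zero h0.ne'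
  have hN : N ≠ 0 := by rintro rfl; simp at h0
  have hp : 2 ^ (d + 1) ≤ N := by
    have := Nat.pow_log_le_self 2 hN
    rwa [hd] at this
  have hc := count C hC univ (fun e => flips y π (π.symm e.2).val)
    (fun e => flips y π ((π.symm e.2).val + 1)) (by
      intro e _
      constructor
      · simp only [flips, lt_irrefl, if_false, Nat.lt_succ_self, if_true]
        cases y e.2 <;> simp
      · intro i hi
        have : (π.symm i).val ≠ (π.symm e.2).val := by
          intro h
          exact hi (π.symm.injective (Fin.ext h))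
        simp only [flips]
        by_cases c : (π.symm i).val < (π.symm e.2).val
        · rw [if_pos c, if_pos (by omega)]
        · rw [if_neg c, if_neg (by omega)]) d
  have hs : (∑ e : Fin N × Fin N, C.changes (word e.1 (flips y π (π.symm e.2).val))
      (word e.1 (flips y π ((π.symm e.2).val + 1)))) = ∑ k : Fin N, ∑ i : Fin N,
      C.changes (word k (flips y π i.val)) (word k (flips y π (i.val + 1))) := by
    rw [Fintype.sum_prod_type]
    refine Finset.sum_congr rfl fun k _ => ?_
    exact Equiv.sum_comp π.symm
      (fun i : Fin N => C.changes (word k (flips y π i.val)) (word k (flips y π (i.val + 1))))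
  rw [hs] at hc
  have hcard : #(univ : Finset (Fin N × Fin N)) = N * N := by simp
  rw [hcard] at hc
  rw [hd]
  have h1 : 2 * ((d + 1) * (N * 2 ^ d)) ≤ (d + 1) * (N * N) := by
    calc 2 * ((d + 1) * (N * 2 ^ d)) = (d + 1) * (N * 2 ^ (d + 1)) := by ring
      _ ≤ (d + 1) * (N * N) := by gcongr
  have h2 : N * N * (d + 1) = (d + 1) * (N * N) := by ring
  rw [Nat.succ_eq_add_one, h2]
  omega

/-- All but few payload bits can be fixed such that every gate depends on one free bit at most. -/
theorem kill (k : Fin N) (i : ℕ) : ∃ F : Finset (Fin N), #F ≤ #{g ∈ C.mixing k | g.val < i} ∧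
    ∀ u : (Fin (2 * N) × Fin 2) ⊕ Fin s, (∀ g, u = Sum.inr g → g.val < i) →
      ∃ j : Fin N, ∀ y y' : Fin N → Bool, (∀ f ∈ F, y f = false) → (∀ f ∈ F, y' f = false) →
        y j = y' j → C.node (word k y) u = C.node (word k y') u := by
  induction i with
  | zero =>
    refine ⟨∅, by simp, ?_⟩
    intro u hu
    rcases u with a | g
    · by_cases h : k.val ≤ a.1.val ∧ a.1.val < k.val + N
      · refine ⟨⟨a.1.val - k.val, by omega⟩, ?_⟩
        intro y y' _ _ hy
        have : word k y a.1 = word k y' a.1 := by
          unfold word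
          rw [dif_pos h, dif_pos h, hy]
        simp only [Circuit.node, inBit, this]
      · refine ⟨k, ?_⟩
        intro y y' _ _ _
        have : word k y a.1 = word k y' a.1 := by
          unfold word
          rw [dif_neg h, dif_neg h]
        simp only [Circuit.node, inBit, this]
    · exact absurd (hu g rfl) (Nat.not_lt_zero _)
  | succ i ih =>
    obtain ⟨F, hF, hu⟩ := ih
    by_cases hi : i < s
    swap
    · refine ⟨F, hF.trans (Finset.card_le_card ?_), ?_⟩
      · intro g hg
        obtain ⟨h1, h2⟩ := Finset.mem_filter.1 hg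
        exact Finset.mem_filter.2 ⟨h1, by omega⟩
      · intro u hu'
        exact hu u (fun g hg => by have := g.isLt; omega)
    set g₀ : Fin s := ⟨i, hi⟩ with hg₀
    obtain ⟨j₁, hj₁⟩ := hu (C.left g₀) (fun g hg => C.left_lt g₀ g hg)
    obtain ⟨j₂, hj₂⟩ := hu (C.right g₀) (fun g hg => C.right_lt g₀ g hg)
    have hold : ∀ (F' : Finset (Fin N)), F ⊆ F' → (∃ j : Fin N, ∀ y y' : Fin N → Bool,
        (∀ f ∈ F', y f = false) → (∀ f ∈ F', y' f = false) → y j = y' j →
          C.val (word k y) g₀ = C.val (word k y') g₀) →
        ∀ u : (Fin (2 * N) × Fin 2) ⊕ Fin s, (∀ g, u = Sum.inr g → g.val < i + 1) →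
      ∃ j : Fin N, ∀ y y' : Fin N → Bool, (∀ f ∈ F', y f = false) → (∀ f ∈ F', y' f = false) →
        y j = y' j → C.node (word k y) u = C.node (word k y') u := by
      intro F' hFF hg u hu'
      by_cases hui : u = Sum.inr g₀
      · subst hui
        exact hg
      · obtain ⟨j, hj⟩ := hu u (fun g hg' => by
          have h1 := hu' g hg'
          have h2 : g ≠ g₀ := fun h => hui (by rw [hg', h])
          have h3 : g.val ≠ i := fun h => h2 (Fin.ext h)
          omega)
        exact ⟨j, fun y y' h1 h2 h3 => hj y y' (fun f hf => h1 f (hFF hf))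
          (fun f hf => h2 f (hFF hf)) h3⟩
    by_cases hm : g₀ ∈ C.mixing k
    · refine ⟨insert j₁ F, ?_, hold _ (Finset.subset_insert _ _) ?_⟩
      · have h1 : insert g₀ {g ∈ C.mixing k | g.val < i} ⊆ {g ∈ C.mixing k | g.val < i + 1} := by
          intro g hg
          rw [Finset.mem_insert] at hg
          rcases hg with rfl | hg
          · exact Finset.mem_filter.2 ⟨hm, by simp [hg₀]⟩
          · obtain ⟨h1, h2⟩ := Finset.mem_filter.1 hg
            exact Finset.mem_filter.2 ⟨h1, by omega⟩
        have h2 := Finset.card_le_card h1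
        rw [Finset.card_insert_of_notMem (by simp [hg₀])] at h2
        exact (Finset.card_insert_le _ _).trans (by omega)
      · refine ⟨j₂, ?_⟩
        intro y y' h1 h2 h3
        rw [val_eq, val_eq]
        rw [hj₁ y y' (fun f hf => h1 f (Finset.mem_insert_of_mem hf))
          (fun f hf => h2 f (Finset.mem_insert_of_mem hf))
          (by rw [h1 j₁ (Finset.mem_insert_self _ _), h2 j₁ (Finset.mem_insert_self _ _)])]
        rw [hj₂ y y' (fun f hf => h1 f (Finset.mem_insert_of_mem hf))
          (fun f hf => h2 f (Finset.mem_insert_of_mem hf)) h3]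
    · refine ⟨F, hF.trans (Finset.card_le_card ?_), hold _ (Finset.Subset.refl _) ?_⟩
      · intro g hg
        obtain ⟨h1, h2⟩ := Finset.mem_filter.1 hg
        exact Finset.mem_filter.2 ⟨h1, by omega⟩
      · simp only [Circuit.mixing, Finset.mem_filter, Finset.mem_univ, true_and, not_and_or,
          not_exists, not_not] at hm
        rcases hm with hm | hm | hm
        · refine ⟨j₁, ?_⟩
          intro y y' h1 h2 h3
          rw [val_eq, val_eq, ← hm, hj₁ y y' h1 h2 h3]
        · refine ⟨j₂, ?_⟩
          intro y y' h1 h2 h3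
          rw [val_eq, val_eq, hm y y', hj₂ y y' h1 h2 h3]
        · refine ⟨j₁, ?_⟩
          intro y y' h1 h2 h3
          rw [val_eq, val_eq, hm y y', hj₁ y y' h1 h2 h3]

/-- A Boolean sequence changes at most `2 D + 1` times if it decreases `D` times, and it decreases at
most once more than it increases. -/
theorem alternation (b : ℕ → Bool) (m : ℕ) :
    #{i ∈ range m | b i ≠ b (i + 1)} =
      #{i ∈ range m | b i = true ∧ b (i + 1) = false} +
        #{i ∈ range m | b i = false ∧ b (i + 1) = true} ∧
    #{i ∈ range m | b i = false ∧ b (i + 1) = true} + (b 0).toNat =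
      #{i ∈ range m | b i = true ∧ b (i + 1) = false} + (b m).toNat := by
  induction m with
  | zero => simp
  | succ m ih =>
    obtain ⟨h1, h2⟩ := ih
    simp only [Finset.range_add_one, Finset.filter_insert]
    have hm : ∀ P : ℕ → Prop, ∀ [DecidablePred P], m ∉ Finset.filter P (range m) := by
      intro P _ h
      simp at h
    cases hb : b m <;> cases hb' : b (m + 1) <;>
      simp [hb, Finset.card_insert_of_notMem (hm _)] at h1 h2 ⊢ <;>
      omega

section Chain

/-- The antitone gates of `A` below the node `u` change if `u` decreases. -/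
theorem down (A : Finset (Fin s)) (k : Fin N) (y : ℕ → Fin N → Bool)
    (hy : ∀ i j, y i j ≤ y (i + 1) j)
    (hA : ∀ g, g ∈ C.payload k → g ∉ A → IsMono (C.op g)) (m : ℕ) :
    ∀ (i : ℕ) (u : (Fin (2 * N) × Fin 2) ⊕ Fin s), (∀ g, u = Sum.inr g → g.val < i) →
      C.node (word k (y m)) u = true → C.node (word k (y (m + 1))) u = false →
      ∃ b, u = Sum.inr b ∧ ∃ g ∈ A, g ≤ b ∧ C.val (word k (y m)) g ≠ C.val (word k (y (m + 1))) g := by
  intro i
  induction i with
  | zero =>
    intro u hu h1 h2
    rcases u with a | g
    · exfalso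
      simp only [Circuit.node, inBit] at h1 h2
      by_cases ha : a.2 = 0
      · rw [if_pos ha] at h1 h2
        have h3 : word k (y m) a.1 = 1 := by simpa using h1
        have h4 : word k (y (m + 1)) a.1 ≠ 1 := by simpa using h2
        apply h4
        unfold word at h3 ⊢
        by_cases c : k.val ≤ a.1.val ∧ a.1.val < k.val + N
        · rw [dif_pos c] at h3 ⊢
          have h5 : y m ⟨a.1.val - k.val, by omega⟩ = true := by
            by_contra hc
            rw [if_neg hc] at h3
            exact absurd h3 (by decide)
          have h6 := hy m ⟨a.1.val - k.val, by omega⟩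
          rw [h5] at h6
          have h7 : y (m + 1) ⟨a.1.val - k.val, by omega⟩ = true := by
            cases hc : y (m + 1) ⟨a.1.val - k.val, by omega⟩
            · rw [hc] at h6
              exact absurd h6 (by decide)
            · rfl
          rw [if_pos h7]
        · rw [dif_neg c] at h3
          exact absurd h3 (by decide)
      · rw [if_neg ha] at h1 h2
        have h3 : word k (y m) a.1 = 2 := by simpa using h1
        have h4 : word k (y (m + 1)) a.1 ≠ 2 := by simpa using h2
        apply h4
        unfold word at h3 ⊢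
        by_cases c : k.val ≤ a.1.val ∧ a.1.val < k.val + N
        · rw [dif_pos c] at h3
          split_ifs at h3 <;> exact absurd h3 (by decide)
        · rw [dif_neg c]
    · exact absurd (hu g rfl) (Nat.not_lt_zero _)
  | succ i ih =>
    intro u hu h1 h2
    rcases u with a | g
    · exact ih (Sum.inl a) (fun g hg => absurd hg (by simp)) h1 h2
    · by_cases hgA : g ∈ A
      · refine ⟨g, rfl, g, hgA, le_rfl, ?_⟩
        simp only [Circuit.node] at h1 h2
        rw [h1, h2]
        decide
      · simp only [Circuit.node] at h1 h2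
        have hgi : g.val < i + 1 := hu g rfl
        have hp : g ∈ C.payload k := by
          refine Finset.mem_filter.2 ⟨Finset.mem_univ _, y m, y (m + 1), ?_⟩
          rw [h1, h2]
          decide
        have hmono := hA g hp hgA
        rw [val_eq] at h1 h2
        have key : ∃ v, (v = C.left g ∨ v = C.right g) ∧ C.node (word k (y m)) v = true ∧
            C.node (word k (y (m + 1))) v = false := by
          by_contra hno
          push Not at hno
          have hl : C.node (word k (y m)) (C.left g) ≤ C.node (word k (y (m + 1))) (C.left g) := by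
            have := hno (C.left g) (Or.inl rfl)
            cases h3 : C.node (word k (y m)) (C.left g) <;>
              cases h4 : C.node (word k (y (m + 1))) (C.left g) <;> simp_all
          have hr : C.node (word k (y m)) (C.right g) ≤ C.node (word k (y (m + 1))) (C.right g) := by
            have := hno (C.right g) (Or.inr rfl)
            cases h3 : C.node (word k (y m)) (C.right g) <;>
              cases h4 : C.node (word k (y (m + 1))) (C.right g) <;> simp_all
          have := hmono _ _ _ _ hl hr
          rw [h1, h2] at this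
          exact absurd this (by decide)
        obtain ⟨v, hv, hv1, hv2⟩ := key
        have hvlt : ∀ h : Fin s, v = Sum.inr h → h < g := by
          intro h hh
          rcases hv with hv | hv
          · exact C.left_lt g h (by rw [← hv, hh])
          · exact C.right_lt g h (by rw [← hv, hh])
        obtain ⟨b, rfl, g', hg', hle, hne⟩ := ih v (fun h hh => by
          have := hvlt h hh
          have : h.val < g.val := this
          omega) hv1 hv2
        exact ⟨g, rfl, g', hg', hle.trans (hvlt b rfl).le, hne⟩

/-- The steps of the chain at which an antitone gate changes. -/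
def steps (A : Finset (Fin s)) (k : Fin N) (y : ℕ → Fin N → Bool) (i : ℕ) : Finset ℕ :=
  {m ∈ range N | ∃ g ∈ A, g.val < i ∧ C.val (word k (y m)) g ≠ C.val (word k (y (m + 1))) g}

theorem card_steps (A : Finset (Fin s)) (k : Fin N) (y : ℕ → Fin N → Bool)
    (hy : ∀ i j, y i j ≤ y (i + 1) j)
    (hA : ∀ g, g ∈ C.payload k → g ∉ A → IsMono (C.op g))
    (hA' : ∀ g ∈ A, IsAnti (C.op g)) (i : ℕ) :
    #(steps C A k y i) + 1 ≤ 2 ^ #{g ∈ A | g.val < i} := by
  induction i with
  | zero =>
    have h1 : steps C A k y 0 = ∅ := by
      rw [steps, Finset.filter_eq_empty_iff]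
      rintro m - ⟨g, -, h, -⟩
      exact Nat.not_lt_zero _ h
    rw [h1]
    simp
  | succ i ih =>
    by_cases hex : ∃ g₀ ∈ A, g₀.val = i
    · obtain ⟨g₀, hg₀, hi⟩ := hex
      set Dn : Finset ℕ := {m ∈ range N | C.val (word k (y m)) g₀ = true ∧
        C.val (word k (y (m + 1))) g₀ = false} with hDn
      set Up : Finset ℕ := {m ∈ range N | C.val (word k (y m)) g₀ = false ∧
        C.val (word k (y (m + 1))) g₀ = true} with hUp
      have hUs : Up ⊆ steps C A k y i := by
        intro m hm
        obtain ⟨hm1, h1, h2⟩ := Finset.mem_filter.1 hm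
        rw [val_eq] at h1 h2
        have key : ∃ v, (v = C.left g₀ ∨ v = C.right g₀) ∧ C.node (word k (y m)) v = true ∧
            C.node (word k (y (m + 1))) v = false := by
          by_contra hno
          push Not at hno
          have hl : C.node (word k (y m)) (C.left g₀) ≤
              C.node (word k (y (m + 1))) (C.left g₀) := by
            have := hno (C.left g₀) (Or.inl rfl)
            cases h3 : C.node (word k (y m)) (C.left g₀) <;>
              cases h4 : C.node (word k (y (m + 1))) (C.left g₀) <;> simp_all
          have hr : C.node (word k (y m)) (C.right g₀) ≤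
              C.node (word k (y (m + 1))) (C.right g₀) := by
            have := hno (C.right g₀) (Or.inr rfl)
            cases h3 : C.node (word k (y m)) (C.right g₀) <;>
              cases h4 : C.node (word k (y (m + 1))) (C.right g₀) <;> simp_all
          have := hA' g₀ hg₀ _ _ _ _ hl hr
          rw [h1, h2] at this
          exact absurd this (by decide)
        obtain ⟨v, hv, hv1, hv2⟩ := key
        have hvlt : ∀ h : Fin s, v = Sum.inr h → h < g₀ := by
          intro h hh
          rcases hv with hv | hv
          · exact C.left_lt g₀ h (by rw [← hv, hh])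
          · exact C.right_lt g₀ h (by rw [← hv, hh])
        obtain ⟨b, hb, g', hg', hle, hne⟩ := down C A k y hy hA m i v (fun h hh => by
          have h5 : h.val < g₀.val := hvlt h hh
          omega) hv1 hv2
        refine Finset.mem_filter.2 ⟨hm1, g', hg', ?_, hne⟩
        have h5 : b.val < g₀.val := hvlt b hb
        have h6 : g'.val ≤ b.val := hle
        omega
      have hcov : steps C A k y (i + 1) ⊆ steps C A k y i ∪ Dn := by
        intro m hm
        obtain ⟨hm1, g, hg, hgi, hne⟩ := Finset.mem_filter.1 hm
        rw [Finset.mem_union]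
        by_cases hlt : g.val < i
        · exact Or.inl (Finset.mem_filter.2 ⟨hm1, g, hg, hlt, hne⟩)
        · have : g = g₀ := Fin.ext (by omega)
          subst this
          cases h3 : C.val (word k (y m)) g <;> cases h4 : C.val (word k (y (m + 1))) g
          · rw [h3, h4] at hne
            exact absurd rfl hne
          · exact Or.inl (hUs (Finset.mem_filter.2 ⟨hm1, h3, h4⟩))
          · exact Or.inr (Finset.mem_filter.2 ⟨hm1, h3, h4⟩)
          · rw [h3, h4] at hne
            exact absurd rfl hne
      have h1 : #(steps C A k y (i + 1)) ≤ #(steps C A k y i) + #Dn :=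
        (Finset.card_le_card hcov).trans (Finset.card_union_le _ _)
      have h2 : #Up ≤ #(steps C A k y i) := Finset.card_le_card hUs
      have h3 := (alternation (fun m => C.val (word k (y m)) g₀) N).2
      have h4 : (C.val (word k (y 0)) g₀).toNat ≤ 1 := Bool.toNat_le _
      have h5 : #Dn ≤ #Up + 1 := by
        rw [← hDn, ← hUp] at h3
        omega
      have h6 : #{g ∈ A | g.val < i} + 1 ≤ #{g ∈ A | g.val < i + 1} := by
        have h7 : insert g₀ {g ∈ A | g.val < i} ⊆ {g ∈ A | g.val < i + 1} := by
          intro g hg
          rw [Finset.mem_insert] at hg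
          rcases hg with rfl | hg
          · exact Finset.mem_filter.2 ⟨hg₀, by omega⟩
          · obtain ⟨h8, h9⟩ := Finset.mem_filter.1 hg
            exact Finset.mem_filter.2 ⟨h8, by omega⟩
        have h8 := Finset.card_le_card h7
        rw [Finset.card_insert_of_notMem (by
          intro h
          have := (Finset.mem_filter.1 h).2
          omega)] at h8
        exact h8
      have h7 : 2 ^ (#{g ∈ A | g.val < i} + 1) ≤ 2 ^ #{g ∈ A | g.val < i + 1} :=
        Nat.pow_le_pow_right (by norm_num) h6
      rw [pow_succ] at h7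
      omega
    · have h1 : steps C A k y (i + 1) ⊆ steps C A k y i := by
        intro m hm
        obtain ⟨hm1, g, hg, hgi, hne⟩ := Finset.mem_filter.1 hm
        refine Finset.mem_filter.2 ⟨hm1, g, hg, ?_, hne⟩
        by_contra hlt
        exact hex ⟨g, hg, by omega⟩
      have h2 : #{g ∈ A | g.val < i} ≤ #{g ∈ A | g.val < i + 1} := by
        refine Finset.card_le_card fun g hg => ?_
        obtain ⟨h8, h9⟩ := Finset.mem_filter.1 hg
        exact Finset.mem_filter.2 ⟨h8, by omega⟩
      calc #(steps C A k y (i + 1)) + 1 ≤ #(steps C A k y i) + 1 :=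
            Nat.add_le_add_right (Finset.card_le_card h1) 1
        _ ≤ 2 ^ #{g ∈ A | g.val < i} := ih
        _ ≤ 2 ^ #{g ∈ A | g.val < i + 1} := Nat.pow_le_pow_right (by norm_num) h2

/-- A gate changes at most `2 ^ (t + 1)` times along a chain. -/
theorem gate_changes (A : Finset (Fin s)) (k : Fin N) (y : ℕ → Fin N → Bool)
    (hy : ∀ i j, y i j ≤ y (i + 1) j)
    (hA : ∀ g, g ∈ C.payload k → g ∉ A → IsMono (C.op g))
    (hA' : ∀ g ∈ A, IsAnti (C.op g)) (g : Fin s) :
    #{m ∈ range N | C.val (word k (y m)) g ≠ C.val (word k (y (m + 1))) g} ≤ 2 ^ (#A + 1) := by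
  have h1 := alternation (fun m => C.val (word k (y m)) g) N
  have h2 : #{m ∈ range N | C.val (word k (y m)) g = true ∧
      C.val (word k (y (m + 1))) g = false} ≤ #(steps C A k y s) := by
    refine Finset.card_le_card fun m hm => ?_
    obtain ⟨hm1, h3, h4⟩ := Finset.mem_filter.1 hm
    obtain ⟨b, hb, g', hg', hle, hne⟩ := down C A k y hy hA m s (Sum.inr g)
      (fun h _ => h.isLt) h3 h4
    exact Finset.mem_filter.2 ⟨hm1, g', hg', g'.isLt, hne⟩
  have h3 := card_steps C A k y hy hA hA' s
  have h4 : #{g ∈ A | g.val < s} ≤ #A := Finset.card_filter_le _ _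
  have h5 : 2 ^ #{g ∈ A | g.val < s} ≤ 2 ^ #A := Nat.pow_le_pow_right (by norm_num) h4
  have h6 : (C.val (word k (y N)) g).toNat ≤ 1 := Bool.toNat_le _
  have h7 : 2 ^ (#A + 1) = 2 * 2 ^ #A := by ring
  obtain ⟨h8, h9⟩ := h1
  omega

/-- Part II: few negations. -/
theorem partII (hC : C.Computes) (t : ℕ)
    (h : ∀ k : Fin N, ∀ g ∈ C.payload k, IsMono (C.op g) ∨ IsAnti (C.op g))
    (ht : ∀ k : Fin N, #{g ∈ C.payload k | ¬ IsMono (C.op g)} ≤ t) :
    N * N * Nat.log 2 N ≤ 2 ^ (t + 2) * ∑ k : Fin N, #(C.payload k) := by
  have h1 := partI C hC (fun _ => false) 1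
  have hy : ∀ (i : ℕ) (j : Fin N), flips (fun _ => false) 1 i j ≤
      flips (fun _ => false) (1 : Equiv.Perm (Fin N)) (i + 1) j := by
    intro i j
    unfold flips
    by_cases c : ((1 : Equiv.Perm (Fin N)).symm j).val < i
    · rw [if_pos c, if_pos (by omega)]
    · rw [if_neg c]
      exact Bool.false_le _
  have h2 : ∀ k : Fin N, (∑ i : Fin N, C.changes
      (word k (flips (fun _ => false) (1 : Equiv.Perm (Fin N)) i.val))
      (word k (flips (fun _ => false) (1 : Equiv.Perm (Fin N)) (i.val + 1)))) ≤
      2 ^ (t + 1) * #(C.payload k) := by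
    intro k
    set y : ℕ → Fin N → Bool := flips (fun _ => false) (1 : Equiv.Perm (Fin N)) with hydef
    set A : Finset (Fin s) := {g ∈ C.payload k | ¬ IsMono (C.op g)} with hAdef
    have hAt : #A ≤ t := ht k
    have hA : ∀ g, g ∈ C.payload k → g ∉ A → IsMono (C.op g) := by
      intro g hg hgA
      by_contra hc
      exact hgA (Finset.mem_filter.2 ⟨hg, hc⟩)
    have hA' : ∀ g ∈ A, IsAnti (C.op g) := by
      intro g hg
      obtain ⟨hg1, hg2⟩ := Finset.mem_filter.1 hg
      exact (h k g hg1).resolve_left hg2
    calc (∑ i : Fin N, C.changes (word k (y i.val)) (word k (y (i.val + 1))))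
        = ∑ m ∈ range N, C.changes (word k (y m)) (word k (y (m + 1))) :=
          Fin.sum_univ_eq_sum_range
            (fun m => C.changes (word k (y m)) (word k (y (m + 1)))) N
      _ = ∑ m ∈ range N, ∑ g : Fin s,
            if C.val (word k (y m)) g ≠ C.val (word k (y (m + 1))) g then 1 else 0 := by
          refine Finset.sum_congr rfl fun m _ => ?_
          rw [Circuit.changes, Finset.card_filter]
      _ = ∑ g : Fin s, #{m ∈ range N | C.val (word k (y m)) g ≠ C.val (word k (y (m + 1))) g} := by
          rw [Finset.sum_comm]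
          refine Finset.sum_congr rfl fun g _ => ?_
          rw [Finset.card_filter]
      _ = ∑ g ∈ C.payload k,
            #{m ∈ range N | C.val (word k (y m)) g ≠ C.val (word k (y (m + 1))) g} := by
          symm
          refine Finset.sum_subset (Finset.subset_univ _) fun g _ hg => ?_
          rw [Finset.card_eq_zero, Finset.filter_eq_empty_iff]
          intro m _ hne
          exact hg (Finset.mem_filter.2 ⟨Finset.mem_univ _, _, _, hne⟩)
      _ ≤ ∑ _g ∈ C.payload k, 2 ^ (t + 1) := by
          refine Finset.sum_le_sum fun g _ => ?_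
          exact (gate_changes C A k y hy hA hA' g).trans
            (Nat.pow_le_pow_right (by norm_num) (by omega))
      _ = 2 ^ (t + 1) * #(C.payload k) := by
          rw [Finset.sum_const, smul_eq_mul, mul_comm]
  calc N * N * Nat.log 2 N ≤ 2 * ∑ k : Fin N, ∑ i : Fin N, C.changes
        (word k (flips (fun _ => false) (1 : Equiv.Perm (Fin N)) i.val))
        (word k (flips (fun _ => false) (1 : Equiv.Perm (Fin N)) (i.val + 1))) := h1
    _ ≤ 2 * ∑ k : Fin N, 2 ^ (t + 1) * #(C.payload k) :=
        Nat.mul_le_mul_left _ (Finset.sum_le_sum fun k _ => h2 k)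
    _ = 2 ^ (t + 2) * ∑ k : Fin N, #(C.payload k) := by
        rw [← Finset.mul_sum]
        ring

end Chain

/-- Part III: few mixing gates. -/
theorem partIII (hC : C.Computes) (m : ℕ) (hm : (∑ k : Fin N, #(C.mixing k)) + N * m ≤ N * N) :
    N * m * Nat.log 2 m ≤ 2 * ∑ k : Fin N, #(C.payload k) := by
  rcases Nat.eq_zero_or_pos (Nat.log 2 m) with h0 | h0
  · rw [h0]; simp
  obtain ⟨d, hd⟩ := Nat.exists_eq_succ_of_ne_zero h0.ne'
  have hm0 : m ≠ 0 := by rintro rfl; simp at h0
  have hp : 2 ^ (d + 1) ≤ m := by
    have := Nat.pow_log_le_self 2 hm0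
    rwa [hd] at this
  choose F hF hJ using fun k => kill C k s
  have hJ' : ∀ k : Fin N, ∀ g : Fin s, ∃ j : Fin N, ∀ y y' : Fin N → Bool,
      (∀ f ∈ F k, y f = false) → (∀ f ∈ F k, y' f = false) →
        y j = y' j → C.val (word k y) g = C.val (word k y') g :=
    fun k g => hJ k (Sum.inr g) (fun g' _ => g'.isLt)
  choose J hJ using hJ'
  have hF' : ∀ k, #(F k) ≤ #(C.mixing k) :=
    fun k => (hF k).trans (Finset.card_le_card (Finset.filter_subset _ _))
  set E : Finset (Fin N × Fin N) := {e | e.2 ∉ F e.1} with hE
  have hEk : ∀ f : Fin N × Fin N → ℕ, ∑ e ∈ E, f e = ∑ k : Fin N, ∑ j ∈ (F k)ᶜ, f (k, j) := by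
    intro f
    rw [hE, Finset.sum_filter, Fintype.sum_prod_type]
    refine Finset.sum_congr rfl fun k _ => ?_
    rw [← Finset.sum_filter]
    refine Finset.sum_congr ?_ fun j _ => rfl
    ext j
    simp
  have hcE : N * m ≤ #E := by
    have h1 : #E = ∑ k : Fin N, #((F k)ᶜ) := by
      rw [Finset.card_eq_sum_ones, hEk]
      refine Finset.sum_congr rfl fun k _ => ?_
      rw [Finset.card_eq_sum_ones]
    have h2 : #E + ∑ k : Fin N, #(F k) = N * N := by
      rw [h1, ← Finset.sum_add_distrib]
      calc ∑ k : Fin N, (#((F k)ᶜ) + #(F k)) = ∑ _k : Fin N, N := by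
            refine Finset.sum_congr rfl fun k _ => ?_
            have := Finset.card_compl_add_card (F k)
            simp
        _ = N * N := by simp
    have h3 : ∑ k : Fin N, #(F k) ≤ ∑ k : Fin N, #(C.mixing k) :=
      Finset.sum_le_sum fun k _ => hF' k
    omega
  have hc := count C hC E (fun _ _ => false) (fun e => Function.update (fun _ => false) e.2 true) (by
      intro e _
      constructor
      · simp
      · intro i hi
        rw [Function.update_of_ne hi]) d
  have hS : (∑ e ∈ E, C.changes (word e.1 fun _ => false)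
      (word e.1 (Function.update (fun _ => false) e.2 true))) ≤ ∑ k : Fin N, #(C.payload k) := by
    rw [hEk]
    refine Finset.sum_le_sum fun k _ => ?_
    calc ∑ j ∈ (F k)ᶜ, C.changes (word k fun _ => false)
          (word k (Function.update (fun _ => false) j true))
        ≤ ∑ j ∈ (F k)ᶜ, #{g ∈ C.payload k | J k g = j} := by
          refine Finset.sum_le_sum fun j hj => Finset.card_le_card ?_
          intro g hg
          have hg' : C.val (word k fun _ => false) g ≠
              C.val (word k (Function.update (fun _ => false) j true)) g :=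
            (Finset.mem_filter.1 hg).2
          refine Finset.mem_filter.2 ⟨Finset.mem_filter.2 ⟨Finset.mem_univ _, _, _, hg'⟩, ?_⟩
          by_contra hne
          apply hg'
          refine hJ k g _ _ (fun f _ => rfl) (fun f hf => ?_) ?_
          · rw [Function.update_of_ne]
            rintro rfl
            exact (Finset.mem_compl.1 hj) hf
          · rw [Function.update_of_ne hne]
      _ ≤ ∑ j : Fin N, #{g ∈ C.payload k | J k g = j} :=
          Finset.sum_le_sum_of_subset (Finset.subset_univ _)
      _ = #(C.payload k) := (Finset.card_eq_sum_card_fiberwise (f := J k) (t := univ)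
            (fun _ _ => Finset.mem_coe.2 (Finset.mem_univ _))).symm
  have h1 : 2 * ((d + 1) * (N * 2 ^ d)) ≤ (d + 1) * (N * m) := by
    calc 2 * ((d + 1) * (N * 2 ^ d)) = (d + 1) * (N * 2 ^ (d + 1)) := by ring
      _ ≤ (d + 1) * (N * m) := by gcongr
  have h2 : (d + 1) * (N * m) ≤ (d + 1) * #E := Nat.mul_le_mul_left _ hcE
  have h3 : N * m * (d + 1) = (d + 1) * (N * m) := by ring
  rw [hd, Nat.succ_eq_add_one, h3]
  omega

end Main

end Pool.Agent.Lib.MP_76b24b_lc
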