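import Pool.Agent.Lib.MP_76b24b_lc.Route3

/-!
# MP_76b24b_lc: few gates which depend on many payload bits

All but few payload bits can be fixed such that every gate depends on `D` free bits at most. The
switching activity then gives a lower bound.
-/

set_option autoImplicit false

namespace Pool.Agent.Lib.MP_76b24b_lc

open Finset

/-- The payload bits `l` on which the value of the gate `g` on the words `2 ^ k y 2 ^ (N - k)`
depends. -/
def Circuit.deps {N s : ℕ} (C : Circuit (2 * N) s) (k : Fin N) (g : Fin s) : Finset (Fin N) :=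
  {l : Fin N | ∃ y : Fin N → Bool,
    C.val (word k y) g ≠ C.val (word k (Function.update y l (!(y l)))) g}

/-- The combining gates which depend on more than `D` payload bits. -/
def Circuit.wide {N s : ℕ} (C : Circuit (2 * N) s) (D : ℕ) (k : Fin N) : Finset (Fin s) :=
  {g ∈ C.combining k | D < #(C.deps k g)}

section Main

variable {N s : ℕ} (C : Circuit (2 * N) s)

/-- The free payload bits on which a node depends, if the bits in `F` are fixed. -/
def Circuit.free {N s : ℕ} (C : Circuit (2 * N) s) (k : Fin N) (F : Finset (Fin N))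
    (v : (Fin (2 * N) × Fin 2) ⊕ Fin s) : Finset (Fin N) :=
  {l : Fin N | l ∉ F ∧ ∃ y : Fin N → Bool, (∀ f ∈ F, y f = false) ∧
    C.fn k v y ≠ C.fn k v (Function.update y l (!(y l)))}

theorem mem_free {k : Fin N} {F : Finset (Fin N)} {v : (Fin (2 * N) × Fin 2) ⊕ Fin s}
    {l : Fin N} : l ∈ C.free k F v ↔ l ∉ F ∧ ∃ y : Fin N → Bool, (∀ f ∈ F, y f = false) ∧
      C.fn k v y ≠ C.fn k v (Function.update y l (!(y l))) := by
  unfold Circuit.free
  rw [Finset.mem_filter]
  exact ⟨fun h => h.2, fun h => ⟨Finset.mem_univ _, h⟩⟩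

theorem free_mono {k : Fin N} {F F' : Finset (Fin N)} (h : F ⊆ F')
    (v : (Fin (2 * N) × Fin 2) ⊕ Fin s) : C.free k F' v ⊆ C.free k F v := by
  intro l hl
  obtain ⟨h1, y, h2, h3⟩ := (mem_free C).1 hl
  exact (mem_free C).2 ⟨fun h4 => h1 (h h4), y, fun f hf => h2 f (h hf), h3⟩

theorem free_gate (k : Fin N) (F : Finset (Fin N)) (g : Fin s) :
    C.free k F (Sum.inr g) ⊆ C.free k F (C.left g) ∪ C.free k F (C.right g) := by
  intro l hl
  obtain ⟨h1, y, h2, h3⟩ := (mem_free C).1 hl
  by_contra h4
  rw [Finset.mem_union, not_or] at h4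
  obtain ⟨h5, h6⟩ := h4
  rw [mem_free] at h5 h6
  push Not at h5 h6
  apply h3
  unfold Circuit.fn
  simp only [Circuit.node]
  rw [val_eq, val_eq]
  have h7 := h5 h1 y h2
  have h8 := h6 h1 y h2
  unfold Circuit.fn at h7 h8
  rw [h7, h8]

theorem free_inp (k : Fin N) (F : Finset (Fin N)) (a : Fin (2 * N) × Fin 2) :
    #(C.free k F (Sum.inl a)) ≤ 1 := by
  rw [Finset.card_le_one]
  have key : ∀ l ∈ C.free k F (Sum.inl a), a = (pos k l, (0 : Fin 2)) := by
    intro l hl
    obtain ⟨-, y, -, h3⟩ := (mem_free C).1 hl
    by_contra hne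
    apply h3
    unfold Circuit.fn
    simp only [Circuit.node]
    exact inBit_ne k l _ _ (fun i hi => (Function.update_of_ne hi _ _).symm) a hne
  intro l hl l' hl'
  have h1 := key l hl
  have h2 := key l' hl'
  rw [h1] at h2
  have h3 : pos k l = pos k l' := (Prod.mk.inj h2).1
  simp only [pos, Fin.mk.injEq] at h3
  exact Fin.ext (by omega)

/-- Equal functions up to negation have equal free bits. -/
theorem free_pm {k : Fin N} {F : Finset (Fin N)} {u v : (Fin (2 * N) × Fin 2) ⊕ Fin s}
    (h : PM (C.fn k u) (C.fn k v)) : C.free k F u ⊆ C.free k F v := by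
  intro l hl
  obtain ⟨h1, y, h2, h3⟩ := (mem_free C).1 hl
  refine (mem_free C).2 ⟨h1, y, h2, fun h4 => h3 ((h.eq_iff _ _).2 h4)⟩

theorem mem_combining {k : Fin N} {g : Fin s} : g ∈ C.combining k ↔
    ¬ IsC (C.fn k (Sum.inr g)) ∧ ¬ PM (C.fn k (Sum.inr g)) (C.fn k (C.left g)) ∧
      ¬ PM (C.fn k (Sum.inr g)) (C.fn k (C.right g)) := by
  unfold Circuit.combining IsC PM
  rw [Finset.mem_filter]
  push Not
  constructor
  · rintro ⟨-, h1, h2, h3, h4, h5⟩
    exact ⟨h1, ⟨h2, h3⟩, h4, h5⟩
  · rintro ⟨h1, ⟨h2, h3⟩, h4, h5⟩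
    exact ⟨Finset.mem_univ _, h1, h2, h3, h4, h5⟩

/-- All but few payload bits can be fixed such that every gate depends on `D` free bits at most. -/
theorem narrow (k : Fin N) (D : ℕ) (hD : 0 < D) (i : ℕ) : ∃ F : Finset (Fin N),
    #F ≤ D * #{g ∈ C.wide D k | g.val < i} ∧
    ∀ v : (Fin (2 * N) × Fin 2) ⊕ Fin s, (∀ g, v = Sum.inr g → g.val < i) →
      #(C.free k F v) ≤ D := by
  classical
  induction i with
  | zero =>
    refine ⟨∅, by simp, ?_⟩
    intro v hv
    rcases v with a | g
    · exact (free_inp C k _ a).trans hD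
    · exact absurd (hv g rfl) (Nat.not_lt_zero _)
  | succ i ih =>
    obtain ⟨F, hF, hu⟩ := ih
    by_cases hi : i < s
    swap
    · refine ⟨F, hF.trans (Nat.mul_le_mul_left _ (Finset.card_le_card ?_)), ?_⟩
      · intro g hg
        obtain ⟨h1, h2⟩ := Finset.mem_filter.1 hg
        exact Finset.mem_filter.2 ⟨h1, by omega⟩
      · intro v hv
        exact hu v (fun g hg => by have := g.isLt; omega)
    set g₀ : Fin s := ⟨i, hi⟩ with hg₀
    have hl := hu (C.left g₀) (fun g hg => C.left_lt g₀ g hg)
    have hr := hu (C.right g₀) (fun g hg => C.right_lt g₀ g hg)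
    by_cases hc : #(C.free k F (Sum.inr g₀)) ≤ D
    · refine ⟨F, hF.trans (Nat.mul_le_mul_left _ (Finset.card_le_card ?_)), ?_⟩
      · intro g hg
        obtain ⟨h1, h2⟩ := Finset.mem_filter.1 hg
        exact Finset.mem_filter.2 ⟨h1, by omega⟩
      · intro v hv
        rcases v with a | g
        · exact hu _ (fun g hg => absurd hg (by simp))
        · rcases Nat.lt_or_ge g.val i with h1 | h1
          · exact hu _ (fun g' hg' => by rw [← Sum.inr.inj hg']; exact h1)
          · have h2 : g.val < i + 1 := hv g rfl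
            have h3 : g = g₀ := Fin.ext (by simp only [hg₀]; omega)
            rw [h3]
            exact hc
    · have hw : g₀ ∈ C.wide D k := by
        refine Finset.mem_filter.2 ⟨(mem_combining C).2 ⟨?_, ?_, ?_⟩, ?_⟩
        · intro h
          apply hc
          have : C.free k F (Sum.inr g₀) = ∅ := by
            rw [Finset.eq_empty_iff_forall_notMem]
            intro l hl'
            obtain ⟨-, y, -, h3⟩ := (mem_free C).1 hl'
            exact h3 (h _ _)
          rw [this]
          exact Nat.zero_le _
        · intro h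
          exact hc ((Finset.card_le_card (free_pm C h)).trans hl)
        · intro h
          exact hc ((Finset.card_le_card (free_pm C h)).trans hr)
        · rw [not_le] at hc
          refine lt_of_lt_of_le hc (Finset.card_le_card fun l hl' => ?_)
          obtain ⟨-, y, -, h3⟩ := (mem_free C).1 hl'
          exact Finset.mem_filter.2 ⟨Finset.mem_univ _, y, h3⟩
      refine ⟨F ∪ C.free k F (C.left g₀), ?_, ?_⟩
      · have h1 : #{g ∈ C.wide D k | g.val < i} + 1 ≤ #{g ∈ C.wide D k | g.val < i + 1} := by
          have h7 : insert g₀ {g ∈ C.wide D k | g.val < i} ⊆ {g ∈ C.wide D k | g.val < i + 1} := by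
            intro g hg
            rw [Finset.mem_insert] at hg
            rcases hg with rfl | hg
            · exact Finset.mem_filter.2 ⟨hw, by simp only [hg₀]; omega⟩
            · obtain ⟨h8, h9⟩ := Finset.mem_filter.1 hg
              exact Finset.mem_filter.2 ⟨h8, by omega⟩
          have h8 := Finset.card_le_card h7
          rw [Finset.card_insert_of_notMem (by
            intro h
            have := (Finset.mem_filter.1 h).2
            simp only [hg₀] at this
            omega)] at h8
          exact h8
        calc #(F ∪ C.free k F (C.left g₀)) ≤ #F + #(C.free k F (C.left g₀)) :=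
              Finset.card_union_le _ _
          _ ≤ D * #{g ∈ C.wide D k | g.val < i} + D := add_le_add hF hl
          _ = D * (#{g ∈ C.wide D k | g.val < i} + 1) := by ring
          _ ≤ D * #{g ∈ C.wide D k | g.val < i + 1} := Nat.mul_le_mul_left _ h1
      · have hm := free_mono C (k := k) (F := F) (F' := F ∪ C.free k F (C.left g₀))
          Finset.subset_union_left
        intro v hv
        rcases v with a | g
        · exact (Finset.card_le_card (hm _)).trans (hu _ (fun g hg => absurd hg (by simp)))
        · rcases Nat.lt_or_ge g.val i with h1 | h1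
          · exact (Finset.card_le_card (hm _)).trans
              (hu _ (fun g' hg' => by rw [← Sum.inr.inj hg']; exact h1))
          · have h2 : g.val < i + 1 := hv g rfl
            have h3 : g = g₀ := Fin.ext (by simp only [hg₀]; omega)
            rw [h3]
            refine (Finset.card_le_card ?_).trans hr
            intro l hl'
            rcases Finset.mem_union.1 (free_gate C k _ g₀ hl') with h4 | h4
            · exfalso
              exact ((mem_free C).1 h4).1 (Finset.mem_union_right _ (hm _ h4))
            · exact hm _ h4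

/-- Part V: few wide gates for the shifts in a set `K`. -/
theorem partV (hC : C.Computes) (D m : ℕ) (hD : 0 < D) (K : Finset (Fin N))
    (hm : D * (∑ k ∈ K, #(C.wide D k)) + #K * m ≤ #K * N) :
    #K * m * Nat.log 2 (#K * m / N) ≤ 2 * ∑ k ∈ K, ∑ g : Fin s, min #(C.deps k g) D := by
  classical
  rcases Nat.eq_zero_or_pos (Nat.log 2 (#K * m / N)) with h0 | h0
  · rw [h0]; simp
  obtain ⟨d, hd⟩ := Nat.exists_eq_succ_of_ne_zero h0.ne'
  have hm0 : #K * m / N ≠ 0 := by
    intro h
    rw [h] at h0
    simp at h0
  have hp : N * 2 ^ (d + 1) ≤ #K * m := by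
    have h1 := Nat.pow_log_le_self 2 hm0
    rw [hd] at h1
    calc N * 2 ^ (d + 1) ≤ N * (#K * m / N) := Nat.mul_le_mul_left _ h1
      _ ≤ #K * m := Nat.mul_div_le _ _
  choose F hF hJ using fun k => narrow C k D hD s
  have hF' : ∀ k, #(F k) ≤ D * #(C.wide D k) :=
    fun k => (hF k).trans (Nat.mul_le_mul_left _ (Finset.card_le_card (Finset.filter_subset _ _)))
  set E : Finset (Fin N × Fin N) := {e | e.1 ∈ K ∧ e.2 ∉ F e.1} with hE
  have hEk : ∀ f : Fin N × Fin N → ℕ, ∑ e ∈ E, f e = ∑ k ∈ K, ∑ j ∈ (F k)ᶜ, f (k, j) := by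
    intro f
    rw [hE, Finset.sum_filter, Fintype.sum_prod_type, ← Finset.sum_filter_add_sum_filter_not
      (Finset.univ : Finset (Fin N)) (fun k => k ∈ K)]
    have h1 : ∑ x ∈ (Finset.univ : Finset (Fin N)) with ¬ x ∈ K, ∑ y : Fin N,
        (if (x, y).1 ∈ K ∧ (x, y).2 ∉ F (x, y).1 then f (x, y) else 0) = 0 := by
      refine Finset.sum_eq_zero fun x hx => Finset.sum_eq_zero fun y _ => ?_
      rw [if_neg]
      intro h
      exact (Finset.mem_filter.1 hx).2 h.1
    rw [h1, add_zero]
    have h2 : (Finset.univ : Finset (Fin N)).filter (fun k => k ∈ K) = K := by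
      ext k
      simp
    rw [h2]
    refine Finset.sum_congr rfl fun k hk => ?_
    rw [← Finset.sum_filter]
    refine Finset.sum_congr ?_ fun j _ => rfl
    ext j
    simp [hk]
  have hcE : #K * m ≤ #E := by
    have h1 : #E = ∑ k ∈ K, #((F k)ᶜ) := by
      rw [Finset.card_eq_sum_ones, hEk]
      refine Finset.sum_congr rfl fun k _ => ?_
      rw [Finset.card_eq_sum_ones]
    have h2 : #E + ∑ k ∈ K, #(F k) = #K * N := by
      rw [h1, ← Finset.sum_add_distrib]
      calc ∑ k ∈ K, (#((F k)ᶜ) + #(F k)) = ∑ _k ∈ K, N := by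
            refine Finset.sum_congr rfl fun k _ => ?_
            have := Finset.card_compl_add_card (F k)
            simp
        _ = #K * N := by rw [Finset.sum_const, smul_eq_mul]
    have h3 : ∑ k ∈ K, #(F k) ≤ D * ∑ k ∈ K, #(C.wide D k) := by
      rw [Finset.mul_sum]
      exact Finset.sum_le_sum fun k _ => hF' k
    omega
  have hc := count C hC E (fun _ _ => false) (fun e => Function.update (fun _ => false) e.2 true) (by
      intro e _
      constructor
      · simp
      · intro i hi
        rw [Function.update_of_ne hi]) d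
  have hS : (∑ e ∈ E, C.changes (word e.1 fun _ => false)
      (word e.1 (Function.update (fun _ => false) e.2 true))) ≤
      ∑ k ∈ K, ∑ g : Fin s, min #(C.deps k g) D := by
    rw [hEk]
    refine Finset.sum_le_sum fun k _ => ?_
    calc ∑ j ∈ (F k)ᶜ, C.changes (word k fun _ => false)
          (word k (Function.update (fun _ => false) j true))
        = ∑ j ∈ (F k)ᶜ, ∑ g : Fin s, (if C.val (word k fun _ => false) g ≠
            C.val (word k (Function.update (fun _ => false) j true)) g then 1 else 0) := by
          refine Finset.sum_congr rfl fun j _ => ?_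
          rw [Circuit.changes, Finset.card_filter]
      _ = ∑ g : Fin s, ∑ j ∈ (F k)ᶜ, (if C.val (word k fun _ => false) g ≠
            C.val (word k (Function.update (fun _ => false) j true)) g then 1 else 0) :=
          Finset.sum_comm
      _ ≤ ∑ g : Fin s, min #(C.deps k g) D := by
          refine Finset.sum_le_sum fun g _ => ?_
          rw [← Finset.card_filter]
          have h1 : {j ∈ (F k)ᶜ | C.val (word k fun _ => false) g ≠
              C.val (word k (Function.update (fun _ => false) j true)) g} ⊆
              C.free k (F k) (Sum.inr g) := by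
            intro j hj
            obtain ⟨h2, h3⟩ := Finset.mem_filter.1 hj
            exact (mem_free C).2 ⟨Finset.mem_compl.1 h2, fun _ => false, fun _ _ => rfl, h3⟩
          have h2 : C.free k (F k) (Sum.inr g) ⊆ C.deps k g := by
            intro l hl'
            obtain ⟨-, y, -, h3⟩ := (mem_free C).1 hl'
            exact Finset.mem_filter.2 ⟨Finset.mem_univ _, y, h3⟩
          exact le_min (Finset.card_le_card (h1.trans h2))
            ((Finset.card_le_card h1).trans (hJ k _ (fun g' _ => g'.isLt)))
  have h1 : 2 * ((d + 1) * (N * 2 ^ d)) ≤ (d + 1) * (#K * m) := by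
    calc 2 * ((d + 1) * (N * 2 ^ d)) = (d + 1) * (N * 2 ^ (d + 1)) := by ring
      _ ≤ (d + 1) * (#K * m) := Nat.mul_le_mul_left _ hp
  have h2 : (d + 1) * (#K * m) ≤ (d + 1) * #E := Nat.mul_le_mul_left _ hcE
  have h3 : #K * m * (d + 1) = (d + 1) * (#K * m) := by ring
  rw [hd, Nat.succ_eq_add_one, h3]
  omega

end Main

end Pool.Agent.Lib.MP_76b24b_lc
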