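import Pool.Agent.Lib.MP_76b24b_lc.Core

/-!
# MP_76b24b_lc: a routing lemma for networks with arbitrary gates

A network with `N` input bits and gates with two inputs which computes all its input bits (the output
node `o l` computes the bit `l`) and has `r` gates whose value is neither constant nor equal to one of
the two inputs of the gate up to negation, has at least `N - r / 3` bits `l` which are joined to their
outputs `o l` by vertex disjoint paths.
-/

set_option autoImplicit false

namespace Pool.Agent.Lib.MP_76b24b_lc

open Finset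

section Functions

variable {N : ℕ}

/-- Equal up to negation. -/
def PM (F G : (Fin N → Bool) → Bool) : Prop := (∀ y, F y = G y) ∨ ∀ y, F y = !(G y)

/-- Constant. -/
def IsC (F : (Fin N → Bool) → Bool) : Prop := ∀ y y', F y = F y'

/-- The coordinate `l`. -/
def co (l : Fin N) (y : Fin N → Bool) : Bool := y l

theorem PM.refl (F : (Fin N → Bool) → Bool) : PM F F := Or.inl fun _ => rfl

theorem PM.symm {F G : (Fin N → Bool) → Bool} (h : PM F G) : PM G F := by
  rcases h with h | h
  · exact Or.inl fun y => (h y).symm
  · exact Or.inr fun y => by rw [h y, Bool.not_not]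

theorem PM.trans {F G H : (Fin N → Bool) → Bool} (h : PM F G) (h' : PM G H) : PM F H := by
  rcases h with h | h <;> rcases h' with h' | h'
  · exact Or.inl fun y => by rw [h, h']
  · exact Or.inr fun y => by rw [h, h']
  · exact Or.inr fun y => by rw [h, h']
  · exact Or.inl fun y => by rw [h, h', Bool.not_not]

theorem PM.comp {F G : (Fin N → Bool) → Bool} (h : PM F G) (σ : (Fin N → Bool) → Fin N → Bool) :
    PM (fun y => F (σ y)) (fun y => G (σ y)) := by
  rcases h with h | h
  · exact Or.inl fun y => h _
  · exact Or.inr fun y => h _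

theorem PM.eq_iff {F G : (Fin N → Bool) → Bool} (h : PM F G) (y y' : Fin N → Bool) :
    F y = F y' ↔ G y = G y' := by
  rcases h with h | h
  · rw [h, h]
  · rw [h, h]
    cases G y <;> cases G y' <;> simp

theorem PM.isC {F G : (Fin N → Bool) → Bool} (h : PM F G) (hG : IsC G) : IsC F :=
  fun y y' => (h.eq_iff y y').2 (hG y y')

/-- A function of one bit. -/
theorem fn1 {F G : (Fin N → Bool) → Bool} (h : ∀ y y', G y = G y' → F y = F y') :
    IsC F ∨ PM F G := by
  by_cases hF : IsC F
  · exact Or.inl hF
  · right
    unfold IsC at hF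
    push Not at hF
    obtain ⟨y0, y1, h01⟩ := hF
    have hG : G y0 ≠ G y1 := fun hh => h01 (h _ _ hh)
    by_cases h0 : F y0 = G y0
    · left
      intro y
      by_cases hy : G y = G y0
      · rw [h _ _ hy, h0, hy]
      · have hy1 : G y = G y1 := by
          revert hy hG
          cases G y <;> cases G y0 <;> cases G y1 <;> simp
        rw [h _ _ hy1, hy1]
        revert h01 hG h0
        cases F y0 <;> cases F y1 <;> cases G y0 <;> cases G y1 <;> simp
    · right
      intro y
      by_cases hy : G y = G y0
      · rw [h _ _ hy, hy]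
        revert h0
        cases F y0 <;> cases G y0 <;> simp
      · have hy1 : G y = G y1 := by
          revert hy hG
          cases G y <;> cases G y0 <;> cases G y1 <;> simp
        rw [h _ _ hy1, hy1]
        revert h01 hG h0
        cases F y0 <;> cases F y1 <;> cases G y0 <;> cases G y1 <;> simp

theorem co_update (l : Fin N) (y : Fin N → Bool) (b : Bool) : co l (Function.update y l b) = b := by
  simp [co]

theorem co_update_ne {l j : Fin N} (h : j ≠ l) (y : Fin N → Bool) (b : Bool) :
    co j (Function.update y l b) = co j y := by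
  simp [co, Function.update_of_ne h]

theorem co_flip (l : Fin N) (y : Fin N → Bool) :
    co l (Function.update y l (!(y l))) ≠ co l y := by
  rw [co_update]
  unfold co
  cases y l <;> simp

theorem not_isC_co (l : Fin N) : ¬ IsC (co l) := by
  intro h
  exact co_flip l (fun _ => false) (h _ _)

theorem co_inj {j l : Fin N} (h : PM (co j) (co l)) : j = l := by
  by_contra hne
  have h1 := (h.eq_iff (Function.update (fun _ => false) l (!((fun _ : Fin N => false) l)))
    (fun _ => false)).1 (co_update_ne hne _ _)
  exact co_flip l (fun _ => false) h1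

end Functions

section Route

variable {A : Type} {s N : ℕ}

/-- Values of the nodes of a network, as functions of `N` bits. The bits in `L` are live. -/
structure Valn (left right : Fin s → A ⊕ Fin s) (ι : Fin N → A) (o : Fin N → A ⊕ Fin s)
    (L : Finset (Fin N)) (F : A ⊕ Fin s → (Fin N → Bool) → Bool) : Prop where
  gate : ∀ g y y', F (left g) y = F (left g) y' → F (right g) y = F (right g) y' →
    F (Sum.inr g) y = F (Sum.inr g) y'
  inp : ∀ a, IsC (F (Sum.inl a)) ∨ ∃ l ∈ L, a = ι l ∧ ∀ y, F (Sum.inl a) y = co l y
  out : ∀ l ∈ L, ∀ y, F (o l) y = co l y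

open Classical in
/-- The gates whose value is neither constant nor an input of the gate up to negation. -/
noncomputable def mix (left right : Fin s → A ⊕ Fin s) (F : A ⊕ Fin s → (Fin N → Bool) → Bool) :
    Finset (Fin s) :=
  {g : Fin s | ¬ IsC (F (Sum.inr g)) ∧ ¬ PM (F (Sum.inr g)) (F (left g)) ∧
    ¬ PM (F (Sum.inr g)) (F (right g))}

open Classical in
/-- The mixing gates which use the value `G`. -/
noncomputable def use (left right : Fin s → A ⊕ Fin s) (F : A ⊕ Fin s → (Fin N → Bool) → Bool)
    (G : (Fin N → Bool) → Bool) : Finset (Fin s) :=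
  {g ∈ mix left right F | PM (F (left g)) G ∨ PM (F (right g)) G}

open Classical in
/-- The mixing gates which compute the value `G`. -/
noncomputable def dec (left right : Fin s → A ⊕ Fin s) (F : A ⊕ Fin s → (Fin N → Bool) → Bool)
    (G : (Fin N → Bool) → Bool) : Finset (Fin s) :=
  {g ∈ mix left right F | PM (F (Sum.inr g)) G}

/-- There is a path from `u` to `v` with all nodes in `S`. -/
inductive Pth (left right : Fin s → A ⊕ Fin s) (S : A ⊕ Fin s → Prop) (u : A ⊕ Fin s) :
    A ⊕ Fin s → Prop
  | base : S u → Pth left right S u u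
  | stepL (g : Fin s) : Pth left right S u (left g) → S (Sum.inr g) →
      Pth left right S u (Sum.inr g)
  | stepR (g : Fin s) : Pth left right S u (right g) → S (Sum.inr g) →
      Pth left right S u (Sum.inr g)

variable {left right : Fin s → A ⊕ Fin s} {ι : Fin N → A} {o : Fin N → A ⊕ Fin s}
  {L : Finset (Fin N)} {F : A ⊕ Fin s → (Fin N → Bool) → Bool}

open Classical in
theorem mem_mix {g : Fin s} : g ∈ mix left right F ↔ ¬ IsC (F (Sum.inr g)) ∧
    ¬ PM (F (Sum.inr g)) (F (left g)) ∧ ¬ PM (F (Sum.inr g)) (F (right g)) := by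
  unfold mix
  rw [Finset.mem_filter]
  exact ⟨fun h => h.2, fun h => ⟨Finset.mem_univ _, h⟩⟩

open Classical in
theorem mem_use {G : (Fin N → Bool) → Bool} {g : Fin s} : g ∈ use left right F G ↔
    g ∈ mix left right F ∧ (PM (F (left g)) G ∨ PM (F (right g)) G) := by
  unfold use
  rw [Finset.mem_filter]

open Classical in
theorem mem_dec {G : (Fin N → Bool) → Bool} {g : Fin s} : g ∈ dec left right F G ↔
    g ∈ mix left right F ∧ PM (F (Sum.inr g)) G := by
  unfold dec
  rw [Finset.mem_filter]

theorem Pth.mem {S : A ⊕ Fin s → Prop} {u v : A ⊕ Fin s} (h : Pth left right S u v) : S v := by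
  cases h with
  | base h => exact h
  | stepL g _ h => exact h
  | stepR g _ h => exact h

theorem Pth.mono {S S' : A ⊕ Fin s → Prop} (hS : ∀ v, S v → S' v) {u v : A ⊕ Fin s}
    (h : Pth left right S u v) : Pth left right S' u v := by
  induction h with
  | base h => exact Pth.base (hS _ h)
  | stepL g _ h ih => exact Pth.stepL g ih (hS _ h)
  | stepR g _ h ih => exact Pth.stepR g ih (hS _ h)

theorem Pth.trans {S : A ⊕ Fin s → Prop} {u v w : A ⊕ Fin s} (h : Pth left right S u v)
    (h' : Pth left right S v w) : Pth left right S u w := by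
  induction h' with
  | base _ => exact h
  | stepL g _ h1 ih => exact Pth.stepL g ih h1
  | stepR g _ h1 ih => exact Pth.stepR g ih h1

theorem Pth.ge (hl : ∀ g h : Fin s, left g = Sum.inr h → h < g)
    (hr : ∀ g h : Fin s, right g = Sum.inr h → h < g) {S : A ⊕ Fin s → Prop} {g : Fin s}
    {v : A ⊕ Fin s} (h : Pth left right S (Sum.inr g) v) : ∃ g', v = Sum.inr g' ∧ g ≤ g' := by
  induction h with
  | base _ => exact ⟨g, rfl, le_rfl⟩
  | stepL g1 _ _ ih =>
    obtain ⟨g', h1, h2⟩ := ih
    exact ⟨g1, rfl, h2.trans (hl g1 g' h1).le⟩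
  | stepR g1 _ _ ih =>
    obtain ⟨g', h1, h2⟩ := ih
    exact ⟨g1, rfl, h2.trans (hr g1 g' h1).le⟩

/-- The values outside a set `S` of nodes do not change if the change does not come out of `S`. -/
theorem flow (hl : ∀ g h : Fin s, left g = Sum.inr h → h < g)
    (hr : ∀ g h : Fin s, right g = Sum.inr h → h < g) (hF : Valn left right ι o L F)
    (S : A ⊕ Fin s → Prop) (y y' : Fin N → Bool) (t : ℕ)
    (ha : ∀ a, ¬ S (Sum.inl a) → F (Sum.inl a) y = F (Sum.inl a) y')
    (hb : ∀ g : Fin s, g.val < t → ¬ S (Sum.inr g) → g ∈ mix left right F →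
      F (Sum.inr g) y = F (Sum.inr g) y' ∨ (¬ S (left g) ∧ ¬ S (right g)))
    (hcl : ∀ g : Fin s, PM (F (Sum.inr g)) (F (left g)) → S (left g) → S (Sum.inr g))
    (hcr : ∀ g : Fin s, PM (F (Sum.inr g)) (F (right g)) → S (right g) → S (Sum.inr g)) :
    ∀ v, (∀ g : Fin s, v = Sum.inr g → g.val < t) → ¬ S v → F v y = F v y' := by
  have key : ∀ n : ℕ, n ≤ t → ∀ v, (∀ g : Fin s, v = Sum.inr g → g.val < n) → ¬ S v →
      F v y = F v y' := by
    intro n
    induction n with
    | zero =>
      intro _ v hv hS
      rcases v with a | g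
      · exact ha a hS
      · exact absurd (hv g rfl) (Nat.not_lt_zero _)
    | succ n ih =>
      intro hn v hv hS
      rcases v with a | g
      · exact ha a hS
      · have hgn : g.val < n + 1 := hv g rfl
        have hL : ∀ h : Fin s, left g = Sum.inr h → h.val < n := fun h hh => by
          have : h.val < g.val := hl g h hh
          omega
        have hR : ∀ h : Fin s, right g = Sum.inr h → h.val < n := fun h hh => by
          have : h.val < g.val := hr g h hh
          omega
        by_cases h1 : IsC (F (Sum.inr g))
        · exact h1 _ _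
        by_cases h2 : PM (F (Sum.inr g)) (F (left g))
        · exact (h2.eq_iff _ _).2 (ih (by omega) _ hL fun h => hS (hcl g h2 h))
        by_cases h3 : PM (F (Sum.inr g)) (F (right g))
        · exact (h3.eq_iff _ _).2 (ih (by omega) _ hR fun h => hS (hcr g h3 h))
        rcases hb g (by omega) hS (mem_mix.2 ⟨h1, h2, h3⟩) with h | ⟨h4, h5⟩
        · exact h
        · exact hF.gate g y y' (ih (by omega) _ hL h4) (ih (by omega) _ hR h5)
  exact key t le_rfl

/-- Trace back a node which computes the bit `l`. -/
theorem trace (hl : ∀ g h : Fin s, left g = Sum.inr h → h < g)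
    (hr : ∀ g h : Fin s, right g = Sum.inr h → h < g) (hF : Valn left right ι o L F) (l : Fin N) :
    ∀ n : ℕ, ∀ v, (∀ g : Fin s, v = Sum.inr g → g.val < n) → PM (F v) (co l) →
      Pth left right (fun v => PM (F v) (co l)) (Sum.inl (ι l)) v ∨
        ∃ h ∈ dec left right F (co l),
          Pth left right (fun v => PM (F v) (co l)) (Sum.inr h) v := by
  intro n
  induction n with
  | zero =>
    intro v hv hR
    rcases v with a | g
    · left
      rcases hF.inp a with h | ⟨j, hj, rfl, h⟩
      · exact absurd (hR.symm.isC h) (not_isC_co l)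
      · have h1 : PM (F (Sum.inl (ι j))) (co j) := Or.inl h
        have h2 : j = l := co_inj (h1.symm.trans hR)
        subst h2
        exact Pth.base hR
    · exact absurd (hv g rfl) (Nat.not_lt_zero _)
  | succ n ih =>
    intro v hv hR
    rcases v with a | g
    · exact ih _ (fun g hg => absurd hg (by simp)) hR
    · have hgn : g.val < n + 1 := hv g rfl
      have hL' : ∀ h : Fin s, left g = Sum.inr h → h.val < n := fun h hh => by
        have : h.val < g.val := hl g h hh
        omega
      have hR' : ∀ h : Fin s, right g = Sum.inr h → h.val < n := fun h hh => by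
        have : h.val < g.val := hr g h hh
        omega
      by_cases h1 : IsC (F (Sum.inr g))
      · exact absurd (hR.symm.isC h1) (not_isC_co l)
      by_cases h2 : PM (F (Sum.inr g)) (F (left g))
      · rcases ih _ hL' (h2.symm.trans hR) with h | ⟨h, hh, hp⟩
        · exact Or.inl (Pth.stepL g h hR)
        · exact Or.inr ⟨h, hh, Pth.stepL g hp hR⟩
      by_cases h3 : PM (F (Sum.inr g)) (F (right g))
      · rcases ih _ hR' (h3.symm.trans hR) with h | ⟨h, hh, hp⟩
        · exact Or.inl (Pth.stepR g h hR)
        · exact Or.inr ⟨h, hh, Pth.stepR g hp hR⟩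
      exact Or.inr ⟨g, mem_dec.2 ⟨mem_mix.2 ⟨h1, h2, h3⟩, hR⟩, Pth.base hR⟩

/-- Inputs do not change if the bit `l` is changed, except for the input `l`. -/
theorem inp_eq (hF : Valn left right ι o L F) {l : Fin N} {a : A}
    (ha : ¬ Pth left right (fun v => PM (F v) (co l)) (Sum.inl (ι l)) (Sum.inl a))
    (y : Fin N → Bool) (b : Bool) :
    F (Sum.inl a) y = F (Sum.inl a) (Function.update y l b) := by
  rcases hF.inp a with h | ⟨j, hj, rfl, h⟩
  · exact h _ _
  · rw [h, h]
    by_cases hjl : j = l
    · exfalso
      subst hjl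
      exact ha (Pth.base (Or.inl h))
    · exact (co_update_ne hjl _ _).symm

/-- A bit which no mixing gate uses is transported directly. -/
theorem direct_of_use_empty (hl : ∀ g h : Fin s, left g = Sum.inr h → h < g)
    (hr : ∀ g h : Fin s, right g = Sum.inr h → h < g) (hF : Valn left right ι o L F) {l : Fin N}
    (hlL : l ∈ L) (hA : use left right F (co l) = ∅) :
    Pth left right (fun v => PM (F v) (co l)) (Sum.inl (ι l)) (o l) := by
  by_contra hd
  have h := flow hl hr hF (Pth left right (fun v => PM (F v) (co l)) (Sum.inl (ι l)))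
    (fun _ => false) (Function.update (fun _ => false) l (!((fun _ : Fin N => false) l))) s
    (fun a ha => inp_eq hF ha _ _)
    (fun g _ _ hm => Or.inr ⟨fun h => by
        have : g ∈ use left right F (co l) := mem_use.2 ⟨hm, Or.inl h.mem⟩
        rw [hA] at this
        exact absurd this (Finset.notMem_empty _), fun h => by
        have : g ∈ use left right F (co l) := mem_use.2 ⟨hm, Or.inr h.mem⟩
        rw [hA] at this
        exact absurd this (Finset.notMem_empty _)⟩)
    (fun g h1 h2 => Pth.stepL g h2 (h1.trans h2.mem))
    (fun g h1 h2 => Pth.stepR g h2 (h1.trans h2.mem)) (o l) (fun g _ => g.isLt) hd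
  rw [hF.out l hlL, hF.out l hlL] at h
  exact co_flip l _ h.symm

/-- If `g` is the only mixing gate which uses a bit, and the bit is not transported directly, then `g`
changes whenever the bit is flipped. -/
theorem flip_of_single (hl : ∀ g h : Fin s, left g = Sum.inr h → h < g)
    (hr : ∀ g h : Fin s, right g = Sum.inr h → h < g) (hF : Valn left right ι o L F) {l : Fin N}
    (hlL : l ∈ L) {g : Fin s} (hA : use left right F (co l) = {g})
    (hd : ¬ Pth left right (fun v => PM (F v) (co l)) (Sum.inl (ι l)) (o l)) (y : Fin N → Bool) :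
    F (Sum.inr g) y ≠ F (Sum.inr g) (Function.update y l (!(y l))) := by
  intro hg
  have h := flow hl hr hF (Pth left right (fun v => PM (F v) (co l)) (Sum.inl (ι l)))
    y (Function.update y l (!(y l))) s
    (fun a ha => inp_eq hF ha _ _)
    (fun g' _ _ hm => by
      by_cases hgg : g' = g
      · subst hgg
        exact Or.inl hg
      · right
        refine ⟨fun h => hgg ?_, fun h => hgg ?_⟩
        · have : g' ∈ use left right F (co l) := mem_use.2 ⟨hm, Or.inl h.mem⟩
          rw [hA] at this
          exact Finset.mem_singleton.1 this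
        · have : g' ∈ use left right F (co l) := mem_use.2 ⟨hm, Or.inr h.mem⟩
          rw [hA] at this
          exact Finset.mem_singleton.1 this)
    (fun g h1 h2 => Pth.stepL g h2 (h1.trans h2.mem))
    (fun g h1 h2 => Pth.stepR g h2 (h1.trans h2.mem)) (o l) (fun g _ => g.isLt) hd
  rw [hF.out l hlL, hF.out l hlL] at h
  exact co_flip l _ h.symm

/-- A gate which uses a value does not compute it. -/
theorem not_pm_of_use {G : (Fin N → Bool) → Bool} {g : Fin s} (h : g ∈ use left right F G) :
    ¬ PM (F (Sum.inr g)) G := by
  obtain ⟨h1, h2⟩ := mem_use.1 h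
  obtain ⟨-, h3, h4⟩ := mem_mix.1 h1
  intro h5
  rcases h2 with h2 | h2
  · exact h3 (h5.trans h2.symm)
  · exact h4 (h5.trans h2.symm)

/-- The value of the only mixing gate which uses a bit is used by a mixing gate. -/
theorem use_nonempty (hl : ∀ g h : Fin s, left g = Sum.inr h → h < g)
    (hr : ∀ g h : Fin s, right g = Sum.inr h → h < g) (hF : Valn left right ι o L F) {l : Fin N}
    (hlL : l ∈ L) {g : Fin s} (hA : use left right F (co l) = {g})
    (hd : ¬ Pth left right (fun v => PM (F v) (co l)) (Sum.inl (ι l)) (o l)) :
    (use left right F (F (Sum.inr g))).Nonempty := by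
  rw [Finset.nonempty_iff_ne_empty]
  intro hB
  have hgA : g ∈ use left right F (co l) := by rw [hA]; exact Finset.mem_singleton_self g
  have h := flow hl hr hF (fun v => Pth left right (fun v => PM (F v) (co l)) (Sum.inl (ι l)) v ∨
      PM (F v) (F (Sum.inr g)))
    (fun _ => false) (Function.update (fun _ => false) l (!((fun _ : Fin N => false) l))) s
    (fun a ha => inp_eq hF (fun h => ha (Or.inl h)) _ _)
    (fun g' _ hS hm => by
      right
      have hgg : g' ≠ g := fun h => hS (Or.inr (by rw [h]; exact PM.refl _))
      refine ⟨?_, ?_⟩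
      · rintro (h | h)
        · have : g' ∈ use left right F (co l) := mem_use.2 ⟨hm, Or.inl h.mem⟩
          rw [hA] at this
          exact hgg (Finset.mem_singleton.1 this)
        · have : g' ∈ use left right F (F (Sum.inr g)) := mem_use.2 ⟨hm, Or.inl h⟩
          rw [hB] at this
          exact absurd this (Finset.notMem_empty _)
      · rintro (h | h)
        · have : g' ∈ use left right F (co l) := mem_use.2 ⟨hm, Or.inr h.mem⟩
          rw [hA] at this
          exact hgg (Finset.mem_singleton.1 this)
        · have : g' ∈ use left right F (F (Sum.inr g)) := mem_use.2 ⟨hm, Or.inr h⟩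
          rw [hB] at this
          exact absurd this (Finset.notMem_empty _))
    (fun g h1 h2 => by
      rcases h2 with h2 | h2
      · exact Or.inl (Pth.stepL g h2 (h1.trans h2.mem))
      · exact Or.inr (h1.trans h2))
    (fun g h1 h2 => by
      rcases h2 with h2 | h2
      · exact Or.inl (Pth.stepR g h2 (h1.trans h2.mem))
      · exact Or.inr (h1.trans h2)) (o l) (fun g _ => g.isLt) (by
      rintro (h | h)
      · exact hd h
      · have h1 : PM (F (o l)) (co l) := Or.inl (hF.out l hlL)
        exact not_pm_of_use hgA (h.symm.trans h1))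
  rw [hF.out l hlL, hF.out l hlL] at h
  exact co_flip l _ h.symm

/-- A bit which is not transported directly is computed by a mixing gate. -/
theorem dec_nonempty (hl : ∀ g h : Fin s, left g = Sum.inr h → h < g)
    (hr : ∀ g h : Fin s, right g = Sum.inr h → h < g) (hF : Valn left right ι o L F) {l : Fin N}
    (hlL : l ∈ L) (hd : ¬ Pth left right (fun v => PM (F v) (co l)) (Sum.inl (ι l)) (o l)) :
    (dec left right F (co l)).Nonempty := by
  rcases trace hl hr hF l s (o l) (fun g _ => g.isLt) (Or.inl (hF.out l hlL)) with h | ⟨h, hh, -⟩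
  · exact absurd h hd
  · exact ⟨h, hh⟩

end Route

end Pool.Agent.Lib.MP_76b24b_lc
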