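import Pool.Agent.Lib.MP_76b24b_lc.Route

/-!
# MP_76b24b_lc: a routing lemma for networks with arbitrary gates, part 2

The restrictions, the terminal state and the induction.
-/

set_option autoImplicit false

namespace Pool.Agent.Lib.MP_76b24b_lc

open Finset

section Route

variable {A : Type} {s N : ℕ} {left right : Fin s → A ⊕ Fin s} {ι : Fin N → A}
  {o : Fin N → A ⊕ Fin s} {L : Finset (Fin N)} {F F' : A ⊕ Fin s → (Fin N → Bool) → Bool}

theorem not_mix_self {g : Fin s} (h : IsC (F (Sum.inr g))) : g ∉ mix left right F :=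
  fun hm => (mem_mix.1 hm).1 h

theorem not_mix_left (hg : ∀ g y y', F (left g) y = F (left g) y' →
      F (right g) y = F (right g) y' → F (Sum.inr g) y = F (Sum.inr g) y') {g : Fin s}
    (h : IsC (F (left g))) : g ∉ mix left right F := by
  intro hm
  obtain ⟨h1, -, h2⟩ := mem_mix.1 hm
  rcases fn1 (F := F (Sum.inr g)) (G := F (right g)) (fun y y' hy => hg g y y' (h y y') hy) with
    h3 | h3
  · exact h1 h3
  · exact h2 h3

theorem not_mix_right (hg : ∀ g y y', F (left g) y = F (left g) y' →
      F (right g) y = F (right g) y' → F (Sum.inr g) y = F (Sum.inr g) y') {g : Fin s}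
    (h : IsC (F (right g))) : g ∉ mix left right F := by
  intro hm
  obtain ⟨h1, h2, -⟩ := mem_mix.1 hm
  rcases fn1 (F := F (Sum.inr g)) (G := F (left g)) (fun y y' hy => hg g y y' hy (h y y')) with
    h3 | h3
  · exact h1 h3
  · exact h2 h3

/-- No new mixing gates by a restriction. -/
theorem mix_sub (hg' : ∀ g y y', F' (left g) y = F' (left g) y' →
      F' (right g) y = F' (right g) y' → F' (Sum.inr g) y = F' (Sum.inr g) y')
    (σ : (Fin N → Bool) → Fin N → Bool) (hD : ∀ v, (∀ y, F' v y = F v (σ y)) ∨ IsC (F' v)) :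
    mix left right F' ⊆ mix left right F := by
  intro g hm
  obtain ⟨h1, h2, h3⟩ := mem_mix.1 hm
  have hg1 : ∀ y, F' (Sum.inr g) y = F (Sum.inr g) (σ y) := (hD _).resolve_right h1
  have hl1 : ∀ y, F' (left g) y = F (left g) (σ y) :=
    (hD _).resolve_right fun h => not_mix_left hg' h hm
  have hr1 : ∀ y, F' (right g) y = F (right g) (σ y) :=
    (hD _).resolve_right fun h => not_mix_right hg' h hm
  refine mem_mix.2 ⟨fun h => h1 fun y y' => ?_, fun h => h2 ?_, fun h => h3 ?_⟩
  · rw [hg1, hg1]
    exact h _ _
  · rcases h with h | h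
    · exact Or.inl fun y => by rw [hg1, hl1]; exact h _
    · exact Or.inr fun y => by rw [hg1, hl1]; exact h _
  · rcases h with h | h
    · exact Or.inl fun y => by rw [hg1, hr1]; exact h _
    · exact Or.inr fun y => by rw [hg1, hr1]; exact h _

/-- A restriction which removes one bit, and whose kills are counted. -/
def Good (left right : Fin s → A ⊕ Fin s) (ι : Fin N → A) (o : Fin N → A ⊕ Fin s)
    (L : Finset (Fin N)) (F : A ⊕ Fin s → (Fin N → Bool) → Bool) (l : Fin N) : Prop :=
  ∃ F' : A ⊕ Fin s → (Fin N → Bool) → Bool, Valn left right ι o (L.erase l) F' ∧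
    #(mix left right F') + 3 ≤ #(mix left right F) ∧ ∀ v, IsC (F v) → IsC (F' v)

theorem good_of (σ : (Fin N → Bool) → Fin N → Bool) {l : Fin N}
    (hV : Valn left right ι o (L.erase l) F')
    (hD : ∀ v, (∀ y, F' v y = F v (σ y)) ∨ IsC (F' v)) (K : Finset (Fin s)) (hK : 3 ≤ #K)
    (hK1 : K ⊆ mix left right F) (hK2 : ∀ g ∈ K, g ∉ mix left right F') :
    Good left right ι o L F l := by
  refine ⟨F', hV, ?_, fun v hv => ?_⟩
  · have h1 : mix left right F' ⊆ mix left right F \ K := by
      intro g hg
      exact Finset.mem_sdiff.2 ⟨mix_sub hV.gate σ hD hg, fun h => hK2 g h hg⟩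
    have h2 := Finset.card_le_card h1
    rw [Finset.card_sdiff_of_subset hK1] at h2
    have h3 := Finset.card_le_card hK1
    omega
  · rcases hD v with h | h
    · intro y y'
      rw [h, h]
      exact hv _ _
    · exact h

/-- Restriction of the first kind: two mixing gates use the bit. -/
theorem good1 (hl : ∀ g h : Fin s, left g = Sum.inr h → h < g)
    (hr : ∀ g h : Fin s, right g = Sum.inr h → h < g) (hF : Valn left right ι o L F) {l : Fin N}
    (hlL : l ∈ L) (hA : 2 ≤ #(use left right F (co l)))
    (hd : ¬ Pth left right (fun v => PM (F v) (co l)) (Sum.inl (ι l)) (o l)) :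
    Good left right ι o L F l := by
  classical
  have hE := dec_nonempty hl hr hF hlL hd
  have hcon : ∀ G : (Fin N → Bool) → Bool, PM G (co l) →
      IsC (fun y => G (Function.update y l false)) := by
    intro G hG
    refine (hG.comp fun y => Function.update y l false).isC ?_
    intro y y'
    simp only [co_update]
  have hgate : ∀ (g : Fin s) (y y' : Fin N → Bool),
      (fun v y => F v (Function.update y l false)) (left g) y =
        (fun v y => F v (Function.update y l false)) (left g) y' →
      (fun v y => F v (Function.update y l false)) (right g) y =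
        (fun v y => F v (Function.update y l false)) (right g) y' →
      (fun v y => F v (Function.update y l false)) (Sum.inr g) y =
        (fun v y => F v (Function.update y l false)) (Sum.inr g) y' :=
    fun g y y' h1 h2 => hF.gate g _ _ h1 h2
  refine good_of (F' := fun v y => F v (Function.update y l false))
    (fun y => Function.update y l false) ⟨hgate, ?_, ?_⟩ (fun v => Or.inl fun y => rfl)
    (use left right F (co l) ∪ dec left right F (co l)) ?_ ?_ ?_
  · intro a
    rcases hF.inp a with h | ⟨j, hj, rfl, h⟩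
    · exact Or.inl fun y y' => h _ _
    · by_cases hjl : j = l
      · subst hjl
        exact Or.inl (hcon _ (Or.inl h))
      · refine Or.inr ⟨j, Finset.mem_erase.2 ⟨hjl, hj⟩, rfl, fun y => ?_⟩
        rw [h, co_update_ne hjl]
  · intro j hj y
    obtain ⟨hjl, hjL⟩ := Finset.mem_erase.1 hj
    rw [hF.out j hjL, co_update_ne hjl]
  · rw [Finset.card_union_of_disjoint]
    · have := Finset.card_pos.2 hE
      omega
    · rw [Finset.disjoint_left]
      intro g h1 h2
      exact not_pm_of_use h1 (mem_dec.1 h2).2
  · intro g hg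
    rcases Finset.mem_union.1 hg with hg | hg
    · exact (mem_use.1 hg).1
    · exact (mem_dec.1 hg).1
  · intro g hg
    rcases Finset.mem_union.1 hg with hg | hg
    · rcases (mem_use.1 hg).2 with h | h
      · exact not_mix_left hgate (hcon _ h)
      · exact not_mix_right hgate (hcon _ h)
    · exact not_mix_self (hcon _ (mem_dec.1 hg).2)

/-- Restriction of the second kind: only the gate `g` uses the bit, its value is fixed. -/
theorem good2 (hl : ∀ g h : Fin s, left g = Sum.inr h → h < g)
    (hr : ∀ g h : Fin s, right g = Sum.inr h → h < g) (hF : Valn left right ι o L F) {l : Fin N}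
    (hlL : l ∈ L) {g : Fin s} (hA : use left right F (co l) = {g})
    (hd : ¬ Pth left right (fun v => PM (F v) (co l)) (Sum.inl (ι l)) (o l))
    (hBE : 2 ≤ #(use left right F (F (Sum.inr g)) ∪ dec left right F (co l))) :
    Good left right ι o L F l := by
  classical
  have hgA : g ∈ use left right F (co l) := by rw [hA]; exact Finset.mem_singleton_self g
  set σ : (Fin N → Bool) → Fin N → Bool :=
    fun y => Function.update y l (F (Sum.inr g) (Function.update y l false)) with hσ
  have hσg : ∀ y, F (Sum.inr g) (σ y) = false := by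
    intro y
    rw [hσ]
    simp only
    cases h1 : F (Sum.inr g) (Function.update y l false)
    · exact h1
    · have h2 := flip_of_single hl hr hF hlL hA hd (Function.update y l false)
      rw [h1] at h2
      simp only [Function.update_self, Bool.not_false, Function.update_idem] at h2
      exact (Bool.eq_false_iff.2 fun h3 => h2 h3.symm)
  set F1 : A ⊕ Fin s → (Fin N → Bool) → Bool :=
    fun v y => if PM (F v) (co l) then false else F v (σ y) with hF1
  have hc1 : ∀ v, PM (F v) (co l) → IsC (F1 v) := by
    intro v hv y y'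
    rw [hF1]
    simp only [if_pos hv]
  have he1 : ∀ v, ¬ PM (F v) (co l) → ∀ y, F1 v y = F v (σ y) := by
    intro v hv y
    rw [hF1]
    simp only [if_neg hv]
  have hcg : ∀ v, PM (F v) (F (Sum.inr g)) → IsC (F1 v) := by
    intro v hv
    by_cases h1 : PM (F v) (co l)
    · exact hc1 v h1
    · intro y y'
      rw [he1 v h1, he1 v h1, hv.eq_iff, hσg, hσg]
  have hcc : ∀ v, IsC (F v) → IsC (F1 v) := by
    intro v hv
    by_cases h1 : PM (F v) (co l)
    · exact hc1 v h1
    · intro y y'
      rw [he1 v h1, he1 v h1]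
      exact hv _ _
  have hgate : ∀ (h : Fin s) (y y' : Fin N → Bool), F1 (left h) y = F1 (left h) y' →
      F1 (right h) y = F1 (right h) y' → F1 (Sum.inr h) y = F1 (Sum.inr h) y' := by
    intro h y y' h1 h2
    by_cases hR : PM (F (Sum.inr h)) (co l)
    · exact hc1 _ hR _ _
    by_cases hgh : h = g
    · subst hgh
      exact hcg _ (PM.refl _) _ _
    by_cases hm : h ∈ mix left right F
    · have hnL : ¬ PM (F (left h)) (co l) := fun h3 => hgh (by
        have : h ∈ use left right F (co l) := mem_use.2 ⟨hm, Or.inl h3⟩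
        rw [hA] at this
        exact Finset.mem_singleton.1 this)
      have hnR : ¬ PM (F (right h)) (co l) := fun h3 => hgh (by
        have : h ∈ use left right F (co l) := mem_use.2 ⟨hm, Or.inr h3⟩
        rw [hA] at this
        exact Finset.mem_singleton.1 this)
      rw [he1 _ hnL, he1 _ hnL] at h1
      rw [he1 _ hnR, he1 _ hnR] at h2
      rw [he1 _ hR, he1 _ hR]
      exact hF.gate h _ _ h1 h2
    · by_cases h3 : IsC (F (Sum.inr h))
      · exact hcc _ h3 _ _
      by_cases h4 : PM (F (Sum.inr h)) (F (left h))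
      · have hnL : ¬ PM (F (left h)) (co l) := fun h5 => hR (h4.trans h5)
        rw [he1 _ hnL, he1 _ hnL] at h1
        rw [he1 _ hR, he1 _ hR]
        exact (h4.eq_iff _ _).2 h1
      by_cases h5 : PM (F (Sum.inr h)) (F (right h))
      · have hnR : ¬ PM (F (right h)) (co l) := fun h6 => hR (h5.trans h6)
        rw [he1 _ hnR, he1 _ hnR] at h2
        rw [he1 _ hR, he1 _ hR]
        exact (h5.eq_iff _ _).2 h2
      exact absurd (mem_mix.2 ⟨h3, h4, h5⟩) hm
  have hσj : ∀ j, j ≠ l → ∀ y, co j (σ y) = co j y := by
    intro j hj y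
    rw [hσ]
    exact co_update_ne hj _ _
  refine good_of (F' := F1) σ ⟨hgate, ?_, ?_⟩ ?_
    (insert g (use left right F (F (Sum.inr g)) ∪ dec left right F (co l))) ?_ ?_ ?_
  · intro a
    rcases hF.inp a with h | ⟨j, hj, rfl, h⟩
    · exact Or.inl (hcc _ h)
    · by_cases hR : PM (F (Sum.inl (ι j))) (co l)
      · exact Or.inl (hc1 _ hR)
      · have hjl : j ≠ l := by
          rintro rfl
          exact hR (Or.inl h)
        refine Or.inr ⟨j, Finset.mem_erase.2 ⟨hjl, hj⟩, rfl, fun y => ?_⟩
        rw [he1 _ hR, h, hσj j hjl]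
  · intro j hj y
    obtain ⟨hjl, hjL⟩ := Finset.mem_erase.1 hj
    have h1 : PM (F (o j)) (co j) := Or.inl (hF.out j hjL)
    have hR : ¬ PM (F (o j)) (co l) := fun h2 => hjl (co_inj (h1.symm.trans h2))
    rw [he1 _ hR, hF.out j hjL, hσj j hjl]
  · intro v
    by_cases hR : PM (F v) (co l)
    · exact Or.inr (hc1 v hR)
    · exact Or.inl (he1 v hR)
  · rw [Finset.card_insert_of_notMem]
    · omega
    · intro h
      rcases Finset.mem_union.1 h with h | h
      · exact not_pm_of_use h (PM.refl _)
      · exact not_pm_of_use hgA (mem_dec.1 h).2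
  · intro h hh
    rcases Finset.mem_insert.1 hh with rfl | hh
    · exact (mem_use.1 hgA).1
    · rcases Finset.mem_union.1 hh with hh | hh
      · exact (mem_use.1 hh).1
      · exact (mem_dec.1 hh).1
  · intro h hh
    rcases Finset.mem_insert.1 hh with rfl | hh
    · exact not_mix_self (hcg _ (PM.refl _))
    · rcases Finset.mem_union.1 hh with hh | hh
      · rcases (mem_use.1 hh).2 with h1 | h1
        · exact not_mix_left hgate (hcg _ h1)
        · exact not_mix_right hgate (hcg _ h1)
      · exact not_mix_self (hc1 _ (mem_dec.1 hh).2)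

/-- The bit `l` is transported directly. -/
def Dir (left right : Fin s → A ⊕ Fin s) (ι : Fin N → A) (o : Fin N → A ⊕ Fin s)
    (F : A ⊕ Fin s → (Fin N → Bool) → Bool) (l : Fin N) : Prop :=
  Pth left right (fun v => PM (F v) (co l)) (Sum.inl (ι l)) (o l)

/-- The bit `l` is masked by one gate and recovered by one gate. -/
def Priv (left right : Fin s → A ⊕ Fin s) (F : A ⊕ Fin s → (Fin N → Bool) → Bool) (l : Fin N) :
    Prop :=
  ∃ g h, use left right F (co l) = {g} ∧ use left right F (F (Sum.inr g)) = {h} ∧
    dec left right F (co l) = {h}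

/-- The nodes of the path of the bit `l`. -/
def Own (left right : Fin s → A ⊕ Fin s) (ι : Fin N → A) (o : Fin N → A ⊕ Fin s)
    (F : A ⊕ Fin s → (Fin N → Bool) → Bool) (l : Fin N) (v : A ⊕ Fin s) : Prop :=
  PM (F v) (co l) ∨ (¬ Dir left right ι o F l ∧
    ∃ g ∈ use left right F (co l), PM (F v) (F (Sum.inr g)))

/-- Alternatives for a live bit. -/
theorem cases_bit (hl : ∀ g h : Fin s, left g = Sum.inr h → h < g)
    (hr : ∀ g h : Fin s, right g = Sum.inr h → h < g) (hF : Valn left right ι o L F) {l : Fin N}
    (hlL : l ∈ L) : Dir left right ι o F l ∨ Priv left right F l ∨ Good left right ι o L F l := by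
  classical
  by_cases hd : Dir left right ι o F l
  · exact Or.inl hd
  right
  rcases Nat.lt_or_ge 1 #(use left right F (co l)) with hA | hA
  · exact Or.inr (good1 hl hr hF hlL hA hd)
  have hne : #(use left right F (co l)) ≠ 0 := by
    intro h0
    exact hd (direct_of_use_empty hl hr hF hlL (Finset.card_eq_zero.1 h0))
  obtain ⟨g, hg⟩ := Finset.card_eq_one.1 (by omega : #(use left right F (co l)) = 1)
  rcases Nat.lt_or_ge 1 #(use left right F (F (Sum.inr g)) ∪ dec left right F (co l)) with hB | hB
  · exact Or.inr (good2 hl hr hF hlL hg hd hB)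
  left
  obtain ⟨h, hh⟩ := use_nonempty hl hr hF hlL hg hd
  obtain ⟨h', hh'⟩ := dec_nonempty hl hr hF hlL hd
  have h1 : ∀ x ∈ use left right F (F (Sum.inr g)) ∪ dec left right F (co l), x = h :=
    fun x hx => Finset.card_le_one.1 hB x hx h (Finset.mem_union_left _ hh)
  have h2 : h' = h := h1 h' (Finset.mem_union_right _ hh')
  subst h2
  refine ⟨g, h', hg, ?_, ?_⟩
  · exact Finset.eq_singleton_iff_unique_mem.2 ⟨hh, fun x hx => h1 x (Finset.mem_union_left _ hx)⟩
  · exact Finset.eq_singleton_iff_unique_mem.2 ⟨hh', fun x hx => h1 x (Finset.mem_union_right _ hx)⟩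

/-- The path of a private bit. -/
theorem path_priv (hl : ∀ g h : Fin s, left g = Sum.inr h → h < g)
    (hr : ∀ g h : Fin s, right g = Sum.inr h → h < g) (hF : Valn left right ι o L F) {l : Fin N}
    (hlL : l ∈ L) (hd : ¬ Dir left right ι o F l) (hp : Priv left right F l) :
    Pth left right (Own left right ι o F l) (Sum.inl (ι l)) (o l) := by
  obtain ⟨g, h, hA, hB, hE⟩ := hp
  have hgA : g ∈ use left right F (co l) := by rw [hA]; exact Finset.mem_singleton_self g
  have hhB : h ∈ use left right F (F (Sum.inr g)) := by rw [hB]; exact Finset.mem_singleton_self h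
  have hhE : h ∈ dec left right F (co l) := by rw [hE]; exact Finset.mem_singleton_self h
  have hO1 : ∀ v, PM (F v) (co l) → Own left right ι o F l v := fun v hv => Or.inl hv
  have hO2 : ∀ v, PM (F v) (F (Sum.inr g)) → Own left right ι o F l v :=
    fun v hv => Or.inr ⟨hd, g, hgA, hv⟩
  have hgl : ¬ PM (F (Sum.inr g)) (co l) := not_pm_of_use hgA
  -- the nodes before `h`
  have key : ∀ v, (∀ g : Fin s, v = Sum.inr g → g.val < h.val) →
      ¬ (Pth left right (fun v => PM (F v) (co l)) (Sum.inl (ι l)) v ∨
        Pth left right (fun v => PM (F v) (F (Sum.inr g))) (Sum.inr g) v) →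
      ∀ y : Fin N → Bool, F v y = F v (Function.update y l (!(y l))) := by
    intro v hv hS y
    refine flow hl hr hF (fun v => Pth left right (fun v => PM (F v) (co l)) (Sum.inl (ι l)) v ∨
        Pth left right (fun v => PM (F v) (F (Sum.inr g))) (Sum.inr g) v) y _ h.val
      (fun a ha => inp_eq hF (fun h => ha (Or.inl h)) _ _) ?_ ?_ ?_ v hv hS
    · intro g' hg' hS' hm
      right
      have hgg : g' ≠ g := by
        rintro rfl
        exact hS' (Or.inr (Pth.base (PM.refl _)))
      have hgh : g' ≠ h := by
        rintro rfl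
        exact lt_irrefl _ hg'
      refine ⟨?_, ?_⟩
      · rintro (h1 | h1)
        · have : g' ∈ use left right F (co l) := mem_use.2 ⟨hm, Or.inl h1.mem⟩
          rw [hA] at this
          exact hgg (Finset.mem_singleton.1 this)
        · have : g' ∈ use left right F (F (Sum.inr g)) := mem_use.2 ⟨hm, Or.inl h1.mem⟩
          rw [hB] at this
          exact hgh (Finset.mem_singleton.1 this)
      · rintro (h1 | h1)
        · have : g' ∈ use left right F (co l) := mem_use.2 ⟨hm, Or.inr h1.mem⟩
          rw [hA] at this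
          exact hgg (Finset.mem_singleton.1 this)
        · have : g' ∈ use left right F (F (Sum.inr g)) := mem_use.2 ⟨hm, Or.inr h1.mem⟩
          rw [hB] at this
          exact hgh (Finset.mem_singleton.1 this)
    · intro g' h1 h2
      rcases h2 with h2 | h2
      · exact Or.inl (Pth.stepL g' h2 (h1.trans h2.mem))
      · exact Or.inr (Pth.stepL g' h2 (h1.trans h2.mem))
    · intro g' h1 h2
      rcases h2 with h2 | h2
      · exact Or.inl (Pth.stepR g' h2 (h1.trans h2.mem))
      · exact Or.inr (Pth.stepR g' h2 (h1.trans h2.mem))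
  -- an input of `h` with the value of `g`
  have hin : ∀ u, (∀ g' : Fin s, u = Sum.inr g' → g' < h) → PM (F u) (F (Sum.inr g)) →
      Pth left right (fun v => PM (F v) (F (Sum.inr g))) (Sum.inr g) u := by
    intro u hu hug
    by_contra hno
    have h1 := key u (fun g' hg' => hu g' hg') (by
      rintro (h2 | h2)
      · exact hgl (hug.symm.trans h2.mem)
      · exact hno h2) (fun _ => false)
    exact flip_of_single hl hr hF hlL hA hd _ ((hug.eq_iff _ _).1 h1)
  have hgh : g < h ∧ Pth left right (Own left right ι o F l) (Sum.inr g) (Sum.inr h) := by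
    rcases (mem_use.1 hhB).2 with h1 | h1
    · have h2 := hin (left h) (fun g' hg' => hl h g' hg') h1
      obtain ⟨g', h3, h4⟩ := Pth.ge hl hr h2
      exact ⟨lt_of_le_of_lt h4 (hl h g' h3),
        Pth.stepL h (h2.mono hO2) (hO1 _ (mem_dec.1 hhE).2)⟩
    · have h2 := hin (right h) (fun g' hg' => hr h g' hg') h1
      obtain ⟨g', h3, h4⟩ := Pth.ge hl hr h2
      exact ⟨lt_of_le_of_lt h4 (hr h g' h3),
        Pth.stepR h (h2.mono hO2) (hO1 _ (mem_dec.1 hhE).2)⟩
  -- an input of `g` with the value of the bit
  have hin' : ∀ u, (∀ g' : Fin s, u = Sum.inr g' → g' < g) → PM (F u) (co l) →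
      Pth left right (fun v => PM (F v) (co l)) (Sum.inl (ι l)) u := by
    intro u hu hul
    by_contra hno
    have h1 := key u (fun g' hg' => (hu g' hg').trans hgh.1) (by
      rintro (h2 | h2)
      · exact hno h2
      · exact hgl (h2.mem.symm.trans hul)) (fun _ => false)
    exact co_flip l _ ((hul.eq_iff _ _).1 h1).symm
  have h3 : Pth left right (Own left right ι o F l) (Sum.inl (ι l)) (Sum.inr g) := by
    rcases (mem_use.1 hgA).2 with h1 | h1
    · exact Pth.stepL g ((hin' (left g) (fun g' hg' => hl g g' hg') h1).mono hO1)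
        (hO2 _ (PM.refl _))
    · exact Pth.stepR g ((hin' (right g) (fun g' hg' => hr g g' hg') h1).mono hO1)
        (hO2 _ (PM.refl _))
  have h4 : Pth left right (Own left right ι o F l) (Sum.inr h) (o l) := by
    rcases trace hl hr hF l s (o l) (fun g _ => g.isLt) (Or.inl (hF.out l hlL)) with
      h5 | ⟨h', hh', h5⟩
    · exact absurd h5 hd
    · rw [hE, Finset.mem_singleton] at hh'
      subst hh'
      exact h5.mono hO1
  exact (h3.trans hgh.2).trans h4

/-- In the terminal state the paths are disjoint. -/
theorem own_disjoint (hl : ∀ g h : Fin s, left g = Sum.inr h → h < g)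
    (hr : ∀ g h : Fin s, right g = Sum.inr h → h < g) (hF : Valn left right ι o L F)
    (hT : ∀ l ∈ L, Dir left right ι o F l ∨ Priv left right F l) {l l' : Fin N} (hlL : l ∈ L)
    (hlL' : l' ∈ L) {v : A ⊕ Fin s} (h1 : Own left right ι o F l v)
    (h2 : Own left right ι o F l' v) : l = l' := by
  have aux : ∀ j j' : Fin N, j' ∈ L → PM (F v) (co j) →
      (¬ Dir left right ι o F j' ∧ ∃ g ∈ use left right F (co j'), PM (F v) (F (Sum.inr g))) →
      j = j' := by
    intro j j' hj' h3 h4
    obtain ⟨hd, g, hg, hv⟩ := h4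
    obtain ⟨g', h', hA, -, -⟩ := (hT j' hj').resolve_left hd
    have hgg : g = g' := by
      rw [hA] at hg
      exact Finset.mem_singleton.1 hg
    subst hgg
    by_contra hne
    have h5 := flip_of_single hl hr hF hj' hA hd (fun _ => false)
    apply h5
    rw [hv.symm.eq_iff, h3.eq_iff]
    exact (co_update_ne hne _ _).symm
  rcases h1 with h1 | h1 <;> rcases h2 with h2 | h2
  · exact co_inj (h1.symm.trans h2)
  · exact aux l l' hlL' h1 h2
  · exact (aux l' l hlL h2 h1).symm
  · obtain ⟨hd, g, hg, hv⟩ := h1
    obtain ⟨hd', g', hg', hv'⟩ := h2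
    obtain ⟨g1, h1, hA, hB, hE⟩ := (hT l hlL).resolve_left hd
    obtain ⟨g1', h1', hA', hB', hE'⟩ := (hT l' hlL').resolve_left hd'
    rw [hA] at hg
    rw [hA'] at hg'
    rw [← Finset.mem_singleton.1 hg] at hB
    rw [← Finset.mem_singleton.1 hg'] at hB'
    have hgg : PM (F (Sum.inr g)) (F (Sum.inr g')) := hv.symm.trans hv'
    have h3 : h1 ∈ use left right F (F (Sum.inr g)) := by
      rw [hB]
      exact Finset.mem_singleton_self _
    have h4 : h1 ∈ use left right F (F (Sum.inr g')) := by
      obtain ⟨h5, h6⟩ := mem_use.1 h3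
      exact mem_use.2 ⟨h5, h6.imp (fun h => h.trans hgg) (fun h => h.trans hgg)⟩
    rw [hB', Finset.mem_singleton] at h4
    subst h4
    have h5 : h1 ∈ dec left right F (co l) := by
      rw [hE]
      exact Finset.mem_singleton_self _
    have h6 : h1 ∈ dec left right F (co l') := by
      rw [hE']
      exact Finset.mem_singleton_self _
    exact co_inj ((mem_dec.1 h5).2.symm.trans (mem_dec.1 h6).2)

/-- The routing lemma. -/
theorem route (hl : ∀ g h : Fin s, left g = Sum.inr h → h < g)
    (hr : ∀ g h : Fin s, right g = Sum.inr h → h < g) : ∀ (n : ℕ) (L : Finset (Fin N))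
    (F : A ⊕ Fin s → (Fin N → Bool) → Bool), #L = n → Valn left right ι o L F →
    ∃ (L' : Finset (Fin N)) (P : Fin N → A ⊕ Fin s → Prop), L' ⊆ L ∧
      3 * #L ≤ 3 * #L' + #(mix left right F) ∧
      (∀ l ∈ L', Pth left right (P l) (Sum.inl (ι l)) (o l)) ∧
      (∀ l ∈ L', ∀ v, P l v → ¬ IsC (F v)) ∧
      ∀ l ∈ L', ∀ l' ∈ L', ∀ v, P l v → P l' v → l = l' := by
  intro n
  induction n with
  | zero =>
    intro L F hL hF
    rw [Finset.card_eq_zero] at hL
    subst hL
    exact ⟨∅, fun _ _ => False, Finset.Subset.refl _, by simp, by simp, by simp, by simp⟩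
  | succ n ih =>
    intro L F hL hF
    by_cases hT : ∀ l ∈ L, Dir left right ι o F l ∨ Priv left right F l
    · refine ⟨L, Own left right ι o F, Finset.Subset.refl _, by omega, ?_, ?_, ?_⟩
      · intro l hlL
        by_cases hd : Dir left right ι o F l
        · exact Pth.mono (fun v hv => Or.inl hv) hd
        · exact path_priv hl hr hF hlL hd ((hT l hlL).resolve_left hd)
      · intro l hlL v hv hc
        rcases hv with hv | ⟨hd, g, hg, hv⟩
        · exact not_isC_co l (hv.symm.isC hc)
        · exact (mem_mix.1 (mem_use.1 hg).1).1 (hv.symm.isC hc)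
      · intro l hlL l' hlL' v h1 h2
        exact own_disjoint hl hr hF hT hlL hlL' h1 h2
    · push Not at hT
      obtain ⟨l, hlL, h1, h2⟩ := hT
      rcases cases_bit hl hr hF hlL with h3 | h3 | h3
      · exact absurd h3 h1
      · exact absurd h3 h2
      · obtain ⟨F', hV, hc, hC⟩ := h3
        obtain ⟨L', P, h4, h5, h6, h7, h8⟩ := ih (L.erase l) F' (by
          rw [Finset.card_erase_of_mem hlL, hL]
          rfl) hV
        refine ⟨L', P, h4.trans (Finset.erase_subset _ _), ?_, h6, ?_, h8⟩
        · have h9 := Finset.card_erase_of_mem hlL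
          omega
        · intro j hj v hv hcv
          exact h7 j hj v hv (hC v hcv)

end Route

end Pool.Agent.Lib.MP_76b24b_lc
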