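import Pool.Agent.Lib.MP_76b24b_lc.Route2

/-!
# MP_76b24b_lc: few combining gates

The routing lemma is applied to circuits for the stable sort.
-/

set_option autoImplicit false

namespace Pool.Agent.Lib.MP_76b24b_lc

open Finset

/-- The gates whose value on the words `2 ^ k y 2 ^ (N - k)` depends on the payload `y` and is, as a
function of `y`, neither the value of one of the two input nodes nor its negation. -/
def Circuit.combining {N s : ℕ} (C : Circuit (2 * N) s) (k : Fin N) : Finset (Fin s) :=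
  {g : Fin s | (∃ y y' : Fin N → Bool, C.val (word k y) g ≠ C.val (word k y') g) ∧
    (∃ y : Fin N → Bool, C.val (word k y) g ≠ C.node (word k y) (C.left g)) ∧
    (∃ y : Fin N → Bool, C.val (word k y) g ≠ !(C.node (word k y) (C.left g))) ∧
    (∃ y : Fin N → Bool, C.val (word k y) g ≠ C.node (word k y) (C.right g)) ∧
    ∃ y : Fin N → Bool, C.val (word k y) g ≠ !(C.node (word k y) (C.right g))}

section Main

variable {N s : ℕ} (C : Circuit (2 * N) s)

/-- The values of the nodes as functions of the payload. -/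
def Circuit.fn {N s : ℕ} (C : Circuit (2 * N) s) (k : Fin N) (v : (Fin (2 * N) × Fin 2) ⊕ Fin s)
    (y : Fin N → Bool) : Bool :=
  C.node (word k y) v

theorem valn_circuit (hC : C.Computes) (k : Fin N) :
    Valn C.left C.right (fun l : Fin N => (pos k l, (0 : Fin 2))) C.outP Finset.univ (C.fn k) := by
  refine ⟨?_, ?_, ?_⟩
  · intro g y y' h1 h2
    unfold Circuit.fn at h1 h2 ⊢
    simp only [Circuit.node]
    rw [val_eq, val_eq, h1, h2]
  · rintro ⟨i, b⟩
    by_cases hb : b = 0
    · subst hb
      by_cases hi : k.val ≤ i.val ∧ i.val < k.val + N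
      · right
        refine ⟨⟨i.val - k.val, by omega⟩, Finset.mem_univ _, ?_, ?_⟩
        · refine Prod.ext (Fin.ext ?_) rfl
          simp only [pos]
          omega
        · intro y
          simp only [Circuit.fn, Circuit.node, inBit, co, if_true, word, dif_pos hi]
          cases y ⟨i.val - k.val, by omega⟩ <;> simp
      · left
        intro y y'
        simp only [Circuit.fn, Circuit.node, inBit, if_true, word, dif_neg hi]
    · left
      intro y y'
      simp only [Circuit.fn, Circuit.node, inBit, hb, if_false]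
      have h2 : (word k y i = 2) ↔ (word k y' i = 2) := by
        unfold word
        by_cases c : k.val ≤ i.val ∧ i.val < k.val + N
        · rw [dif_pos c, dif_pos c]
          constructor <;> intro h2 <;> split_ifs at h2 <;> simp at h2
        · rw [dif_neg c, dif_neg c]
      simp only [h2]
  · intro l _ y
    have h1 := (hC (word k y) ⟨l.val, by omega⟩).1
    rw [target_word] at h1
    unfold Circuit.fn Circuit.outP co
    rw [h1]
    cases y l <;> simp

theorem mix_circuit (k : Fin N) : mix C.left C.right (C.fn k) ⊆ C.combining k := by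
  intro g hg
  obtain ⟨h1, h2, h3⟩ := mem_mix.1 hg
  unfold IsC at h1
  unfold PM at h2 h3
  push Not at h1 h2 h3
  exact Finset.mem_filter.2 ⟨Finset.mem_univ _, h1, h2.1, h2.2, h3.1, h3.2⟩

open Classical in
/-- A path which does not begin in `leaves d u` has more than `d` gates. -/
theorem long_pth {n : ℕ} (C : Circuit n s) {S : (Fin n × Fin 2) ⊕ Fin s → Prop}
    {a₀ : Fin n × Fin 2} (d : ℕ) :
    ∀ u, Pth C.left C.right S (Sum.inl a₀) u → a₀ ∉ C.leaves d u →
      d + 1 ≤ #{g : Fin s | S (Sum.inr g) ∧ ∀ b, u = Sum.inr b → g ≤ b} ∧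
        ∃ b, u = Sum.inr b := by
  have hinl : ∀ (d : ℕ) (a : Fin n × Fin 2), Pth C.left C.right S (Sum.inl a₀) (Sum.inl a) →
      a₀ ∉ C.leaves d (Sum.inl a) → False := by
    intro d a hp ha
    cases hp
    exact ha (by cases d <;> exact Finset.mem_singleton_self _)
  induction d with
  | zero =>
    intro u hu ha
    rcases u with a | b
    · exact (hinl _ a hu ha).elim
    · refine ⟨?_, b, rfl⟩
      rw [Nat.zero_add, Nat.one_le_iff_ne_zero, ← Nat.pos_iff_ne_zero, Finset.card_pos]
      refine ⟨b, Finset.mem_filter.2 ⟨Finset.mem_univ _, hu.mem, ?_⟩⟩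
      intro b' hb'
      rw [Sum.inr.inj hb']
  | succ d ih =>
    intro u hu ha
    rcases u with a | b
    · exact (hinl _ a hu ha).elim
    · refine ⟨?_, b, rfl⟩
      have hS := hu.mem
      simp only [Circuit.leaves, Finset.mem_union, not_or] at ha
      have key : ∃ v, Pth C.left C.right S (Sum.inl a₀) v ∧ a₀ ∉ C.leaves d v ∧
          ∀ h : Fin s, v = Sum.inr h → h < b := by
        cases hu with
        | stepL _ h1 _ => exact ⟨C.left b, h1, ha.1, fun h hh => C.left_lt b h hh⟩
        | stepR _ h1 _ => exact ⟨C.right b, h1, ha.2, fun h hh => C.right_lt b h hh⟩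
      obtain ⟨v, hv1, hv2, hv3⟩ := key
      obtain ⟨hc, b', rfl⟩ := ih v hv1 hv2
      have hlt : b' < b := hv3 b' rfl
      have hsub : insert b ({g : Fin s | S (Sum.inr g) ∧
          ∀ b'' : Fin s, (Sum.inr b' : (Fin n × Fin 2) ⊕ Fin s) = Sum.inr b'' → g ≤ b''} :
            Finset (Fin s)) ⊆
          ({g : Fin s | S (Sum.inr g) ∧
          ∀ b'' : Fin s, (Sum.inr b : (Fin n × Fin 2) ⊕ Fin s) = Sum.inr b'' → g ≤ b''} :
            Finset (Fin s)) := by
        intro g hg
        rw [Finset.mem_insert] at hg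
        rcases hg with rfl | hg
        · refine Finset.mem_filter.2 ⟨Finset.mem_univ _, hS, ?_⟩
          intro b'' hb''
          rw [Sum.inr.inj hb'']
        · obtain ⟨-, h1, h2⟩ := Finset.mem_filter.1 hg
          refine Finset.mem_filter.2 ⟨Finset.mem_univ _, h1, ?_⟩
          intro b'' hb''
          have := h2 b' rfl
          rw [← Sum.inr.inj hb'']
          exact this.trans hlt.le
      have hnm : b ∉ ({g : Fin s | S (Sum.inr g) ∧
          ∀ b'' : Fin s, (Sum.inr b' : (Fin n × Fin 2) ⊕ Fin s) = Sum.inr b'' → g ≤ b''} :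
            Finset (Fin s)) := by
        intro hb
        have := (Finset.mem_filter.1 hb).2.2 b' rfl
        exact absurd hlt (not_lt.2 this)
      have := Finset.card_le_card hsub
      rw [Finset.card_insert_of_notMem hnm] at this
      omega

/-- For every shift, many bits are routed, and the far ones use many gates. -/
theorem routed (hC : C.Computes) (k : Fin N) (d : ℕ) : ∃ L : Finset (Fin N),
    3 * N ≤ 3 * #L + #(C.combining k) ∧
    (d + 1) * #L ≤ #(C.payload k) +
      (d + 1) * #{l : Fin N | (pos k l, (0 : Fin 2)) ∈ C.leaves d (C.outP l)} := by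
  classical
  obtain ⟨L, P, -, h1, h2, h3, h4⟩ := route (fun g h => C.left_lt g h) (fun g h => C.right_lt g h)
    N Finset.univ (C.fn k) (by simp) (valn_circuit C hC k)
  refine ⟨L, ?_, ?_⟩
  · have h5 := Finset.card_le_card (mix_circuit C k)
    have h6 : #(Finset.univ : Finset (Fin N)) = N := by simp
    rw [h6] at h1
    omega
  · set T : Finset (Fin N) := {l ∈ L | (pos k l, (0 : Fin 2)) ∉ C.leaves d (C.outP l)} with hT
    have h5 : (d + 1) * #T ≤ #(C.payload k) := by
      calc (d + 1) * #T = ∑ _l ∈ T, (d + 1) := by rw [Finset.sum_const, smul_eq_mul, mul_comm]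
        _ ≤ ∑ l ∈ T, #{g : Fin s | P l (Sum.inr g)} := by
            refine Finset.sum_le_sum fun l hl => ?_
            obtain ⟨hl1, hl2⟩ := Finset.mem_filter.1 hl
            refine (long_pth C d _ (h2 l hl1) hl2).1.trans (Finset.card_le_card ?_)
            intro g hg
            exact Finset.mem_filter.2 ⟨Finset.mem_univ _, (Finset.mem_filter.1 hg).2.1⟩
        _ = #(T.biUnion fun l => {g : Fin s | P l (Sum.inr g)}) := by
            rw [Finset.card_biUnion]
            intro l hl l' hl' hne
            refine Finset.disjoint_left.2 ?_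
            intro g hg hg'
            exact hne (h4 l (Finset.mem_filter.1 hl).1 l' (Finset.mem_filter.1 hl').1 _
              (Finset.mem_filter.1 hg).2 (Finset.mem_filter.1 hg').2)
        _ ≤ #(C.payload k) := by
            refine Finset.card_le_card fun g hg => ?_
            obtain ⟨l, hl, hg⟩ := Finset.mem_biUnion.1 hg
            have h6 := h3 l (Finset.mem_filter.1 hl).1 _ (Finset.mem_filter.1 hg).2
            unfold IsC at h6
            push Not at h6
            exact Finset.mem_filter.2 ⟨Finset.mem_univ _, h6⟩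
    have h6 : #L ≤ #T + #{l : Fin N | (pos k l, (0 : Fin 2)) ∈ C.leaves d (C.outP l)} := by
      have h7 := Finset.card_filter_add_card_filter_not (s := L)
        (fun l => (pos k l, (0 : Fin 2)) ∈ C.leaves d (C.outP l))
      have h8 : #{l ∈ L | (pos k l, (0 : Fin 2)) ∈ C.leaves d (C.outP l)} ≤
          #{l : Fin N | (pos k l, (0 : Fin 2)) ∈ C.leaves d (C.outP l)} :=
        Finset.card_le_card (Finset.filter_subset_filter _ (Finset.subset_univ _))
      have h9 : #T = #{l ∈ L | ¬ (pos k l, (0 : Fin 2)) ∈ C.leaves d (C.outP l)} := rfl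
      omega
    calc (d + 1) * #L ≤ (d + 1) *
          (#T + #{l : Fin N | (pos k l, (0 : Fin 2)) ∈ C.leaves d (C.outP l)}) :=
          Nat.mul_le_mul_left _ h6
      _ = (d + 1) * #T +
          (d + 1) * #{l : Fin N | (pos k l, (0 : Fin 2)) ∈ C.leaves d (C.outP l)} := by ring
      _ ≤ _ := Nat.add_le_add_right h5 _

/-- Part IV: few combining gates for the shifts in a set `K`. -/
theorem partIV (hC : C.Computes) (m : ℕ) (K : Finset (Fin N))
    (hm : (∑ k ∈ K, #(C.combining k)) + 3 * (#K * m) ≤ 3 * (#K * N)) :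
    #K * m * Nat.log 2 (#K * m / N) ≤ 2 * ∑ k ∈ K, #(C.payload k) := by
  rcases Nat.eq_zero_or_pos (Nat.log 2 (#K * m / N)) with h0 | h0
  · rw [h0]; simp
  obtain ⟨d, hd⟩ := Nat.exists_eq_succ_of_ne_zero h0.ne'
  have hm0 : #K * m / N ≠ 0 := by
    intro h
    rw [h] at h0
    simp at h0
  have hp : N * 2 ^ (d + 1) ≤ #K * m := by
    have h1 := Nat.pow_log_le_self 2 hm0
    rw [hd] at h1
    calc N * 2 ^ (d + 1) ≤ N * (#K * m / N) := Nat.mul_le_mul_left _ h1
      _ ≤ #K * m := Nat.mul_div_le _ _
  choose L hL1 hL2 using fun k => routed C hC k d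
  have hnear : ∑ k ∈ K, #{l : Fin N | (pos k l, (0 : Fin 2)) ∈ C.leaves d (C.outP l)} ≤
      N * 2 ^ d := by
    calc ∑ k ∈ K, #{l : Fin N | (pos k l, (0 : Fin 2)) ∈ C.leaves d (C.outP l)}
        ≤ ∑ k : Fin N, #{l : Fin N | (pos k l, (0 : Fin 2)) ∈ C.leaves d (C.outP l)} :=
          Finset.sum_le_sum_of_subset (Finset.subset_univ _)
      _ = ∑ k : Fin N, ∑ l : Fin N,
            if (pos k l, (0 : Fin 2)) ∈ C.leaves d (C.outP l) then 1 else 0 := by
          refine Finset.sum_congr rfl fun k _ => ?_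
          rw [Finset.card_filter]
      _ = ∑ l : Fin N, ∑ k : Fin N,
            if (pos k l, (0 : Fin 2)) ∈ C.leaves d (C.outP l) then 1 else 0 := Finset.sum_comm
      _ = ∑ l : Fin N, #{k : Fin N | (pos k l, (0 : Fin 2)) ∈ C.leaves d (C.outP l)} := by
          refine Finset.sum_congr rfl fun l _ => ?_
          rw [Finset.card_filter]
      _ ≤ ∑ _l : Fin N, 2 ^ d := Finset.sum_le_sum fun l _ => few_short C d l
      _ = N * 2 ^ d := by simp
  have h1 : 3 * (#K * N) ≤ 3 * (∑ k ∈ K, #(L k)) + ∑ k ∈ K, #(C.combining k) := by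
    calc 3 * (#K * N) = ∑ _k ∈ K, 3 * N := by
          rw [Finset.sum_const, smul_eq_mul]
          ring
      _ ≤ ∑ k ∈ K, (3 * #(L k) + #(C.combining k)) := Finset.sum_le_sum fun k _ => hL1 k
      _ = _ := by rw [Finset.sum_add_distrib, Finset.mul_sum]
  have h2 : #K * m ≤ ∑ k ∈ K, #(L k) := by omega
  have h3 : (d + 1) * (∑ k ∈ K, #(L k)) ≤
      (∑ k ∈ K, #(C.payload k)) + (d + 1) * (N * 2 ^ d) := by
    calc (d + 1) * (∑ k ∈ K, #(L k)) = ∑ k ∈ K, (d + 1) * #(L k) := Finset.mul_sum _ _ _
      _ ≤ ∑ k ∈ K, (#(C.payload k) +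
            (d + 1) * #{l : Fin N | (pos k l, (0 : Fin 2)) ∈ C.leaves d (C.outP l)}) :=
          Finset.sum_le_sum fun k _ => hL2 k
      _ = (∑ k ∈ K, #(C.payload k)) + (d + 1) *
            ∑ k ∈ K, #{l : Fin N | (pos k l, (0 : Fin 2)) ∈ C.leaves d (C.outP l)} := by
          rw [Finset.sum_add_distrib, Finset.mul_sum]
      _ ≤ _ := Nat.add_le_add_left (Nat.mul_le_mul_left _ hnear) _
  have h4 : 2 * ((d + 1) * (N * 2 ^ d)) ≤ (d + 1) * (#K * m) := by
    calc 2 * ((d + 1) * (N * 2 ^ d)) = (d + 1) * (N * 2 ^ (d + 1)) := by ring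
      _ ≤ (d + 1) * (#K * m) := Nat.mul_le_mul_left _ hp
  have h5 : (d + 1) * (#K * m) ≤ (d + 1) * ∑ k ∈ K, #(L k) := Nat.mul_le_mul_left _ h2
  have h6 : #K * m * (d + 1) = (d + 1) * (#K * m) := by ring
  rw [hd, Nat.succ_eq_add_one, h6]
  omega

/-- The number of shifts with few combining gates is bounded in terms of the size. -/
theorem exceptional (hN : 0 < N) (hC : C.Computes) (m : ℕ) (hm : 0 < m) :
    #{k : Fin N | #(C.combining k) + 3 * m ≤ 3 * N} * m < N * 2 ^ (2 * s / m + 1) := by
  set K : Finset (Fin N) := {k : Fin N | #(C.combining k) + 3 * m ≤ 3 * N} with hK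
  rcases Finset.eq_empty_or_nonempty K with h0 | h0
  · rw [h0]
    simp only [Finset.card_empty, Nat.zero_mul]
    positivity
  have hpos : 0 < #K := Finset.card_pos.2 h0
  have h1 : (∑ k ∈ K, #(C.combining k)) + 3 * (#K * m) ≤ 3 * (#K * N) := by
    calc (∑ k ∈ K, #(C.combining k)) + 3 * (#K * m) = ∑ k ∈ K, (#(C.combining k) + 3 * m) := by
          rw [Finset.sum_add_distrib, Finset.sum_const, smul_eq_mul]
          ring
      _ ≤ ∑ _k ∈ K, 3 * N := Finset.sum_le_sum fun k hk => (Finset.mem_filter.1 hk).2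
      _ = 3 * (#K * N) := by
          rw [Finset.sum_const, smul_eq_mul]
          ring
  have h2 := partIV C hC m K h1
  have h3 : ∑ k ∈ K, #(C.payload k) ≤ #K * s := by
    calc ∑ k ∈ K, #(C.payload k) ≤ ∑ _k ∈ K, s := by
          refine Finset.sum_le_sum fun k _ => ?_
          have := Finset.card_le_univ (C.payload k)
          simpa using this
      _ = #K * s := by rw [Finset.sum_const, smul_eq_mul]
  have h4 : m * Nat.log 2 (#K * m / N) ≤ 2 * s := by
    refine Nat.le_of_mul_le_mul_left ?_ hpos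
    calc #K * (m * Nat.log 2 (#K * m / N)) = #K * m * Nat.log 2 (#K * m / N) := by ring
      _ ≤ 2 * ∑ k ∈ K, #(C.payload k) := h2
      _ ≤ 2 * (#K * s) := Nat.mul_le_mul_left _ h3
      _ = #K * (2 * s) := by ring
  have h5 : Nat.log 2 (#K * m / N) ≤ 2 * s / m := by
    rw [Nat.le_div_iff_mul_le hm, Nat.mul_comm]
    exact h4
  have h6 : #K * m / N < 2 ^ (2 * s / m + 1) :=
    Nat.lt_pow_of_log_lt (by norm_num) (Nat.lt_succ_of_le h5)
  have h7 := (Nat.div_lt_iff_lt_mul hN).1 h6
  rw [Nat.mul_comm N]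
  exact h7

end Main

end Pool.Agent.Lib.MP_76b24b_lc
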